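import Mathlib

set_option autoImplicit false

namespace Pool.Agent.TH529

open SimpleGraph

variable {V : Type}

/-- A rooted tree has a parent function. -/
theorem exists_parent (G : SimpleGraph V) (hG : G.IsTree) (v : V) :
    ∃ par : V → V,
      (∀ x, x ≠ v → G.Adj (par x) x ∧ G.dist v x = G.dist v (par x) + 1) ∧
      (∀ a b, G.Adj a b → G.dist v a = G.dist v b + 1 → par a = b) := by
  classical
  have huniq : ∀ a b b', G.Adj a b → G.dist v a = G.dist v b + 1 →
      G.Adj a b' → G.dist v a = G.dist v b' + 1 → b = b' := by
    intro a b b' hab hd hab' hd'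
    obtain ⟨p, hp, hpl⟩ := (hG.connected v b).exists_path_of_dist
    obtain ⟨q, hq, hql⟩ := (hG.connected v b').exists_path_of_dist
    have hap : a ∉ p.support := by
      intro ha
      have h1 : G.dist v a ≤ (p.takeUntil a ha).length := dist_le _
      have h2 := p.length_takeUntil_le ha
      omega
    have haq : a ∉ q.support := by
      intro ha
      have h1 : G.dist v a ≤ (q.takeUntil a ha).length := dist_le _
      have h2 := q.length_takeUntil_le ha
      omega
    have h1 := hp.concat hap hab.symm
    have h2 := hq.concat haq hab'.symm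
    have h3 := (hG.existsUnique_path v a).unique h1 h2
    have h4 := congrArg (fun w : G.Walk v a => w.penultimate) h3
    simpa using h4
  have hex : ∀ x, x ≠ v → ∃ y, G.Adj y x ∧ G.dist v x = G.dist v y + 1 := by
    intro x hx
    obtain ⟨p, hp, hpl⟩ := (hG.connected v x).exists_path_of_dist
    have hnil : ¬ p.Nil := Walk.not_nil_of_ne (Ne.symm hx)
    have hadj := p.adj_penultimate hnil
    rcases hG.dist_eq_dist_add_one_of_adj v hadj with h | h
    · exfalso
      have h5 : G.dist v p.penultimate ≤ (p.dropLast).length := dist_le _
      have h6 : p.dropLast.length + 1 = p.length := p.length_dropLast_add_one hnil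
      omega
    · exact ⟨_, hadj, h⟩
  choose! par hpar using hex
  refine ⟨par, hpar, ?_⟩
  intro a b hab hd
  have hav : a ≠ v := by
    rintro rfl
    simp at hd
  exact huniq a _ _ (hpar a hav).1.symm (hpar a hav).2 hab hd

end Pool.Agent.TH529
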