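import Pool.Agent.TH529.Pos

set_option autoImplicit false

/-!
The labelling of the elements of a finite set with an involution.
-/

namespace Pool.Agent.TH529

open Finset Classical

theorem core_int {N : Type} [Fintype N] (τ : N → N) (hτ : ∀ x, τ (τ x) = x)
    (O E2 E4 : N → Prop) (h1 : ∀ x, O x → ¬ E2 x) (h2 : ∀ x, O x → ¬ E4 x)
    (hE24 : ∀ x, E2 x → ¬ E4 x)
    (z q : N → N) (d : N → ℕ)
    (hz : ∀ v, O v → q (z v) = v ∧ τ (z v) = z v ∧ d v < d (z v))
    (hX : ∀ x y, τ x = x → τ y = y → ¬ (O (q x) ∧ z (q x) = x) → ¬ (O (q y) ∧ z (q y) = y) →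
      x = y)
    (hs : 2 * (univ.filter (fun x => τ x ≠ x ∧ Dang τ E2 E4 x)).card +
      2 * (univ.filter (fun x => τ x ≠ x ∧ O x ∧ E2 (τ x))).card +
      2 * (univ.filter (fun x => O x)).card ≤ (univ.filter (fun x => τ x ≠ x)).card) :
    ∃ (f : N → ℤ) (D : ℕ), (∀ x y, f x = f y → x = y) ∧
      (∀ x, 1 ≤ f x ∧ f x ≤ Fintype.card N) ∧
      (∀ x, τ x ≠ x → f x + f (τ x) = Fintype.card N + 1) ∧
      (∀ v w, O v → O w → f v + f (z v) = f w + f (z w) → v = w) ∧
      2 * (D : ℤ) ≤ Fintype.card N ∧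
      (∀ v, O v → Fintype.card N + 1 ≤ f v + f (z v) + D ∧
        f v + f (z v) ≤ Fintype.card N + 1 + D) ∧
      (∀ x, E2 x → f x + D ≤ Fintype.card N) ∧
      (∀ x, E4 x → D < f x ∧ f x + D ≤ Fintype.card N) := by
  obtain ⟨M, hM1, hM2, hME2, hP1, hP2⟩ := exists_orient τ hτ O E2 E4 h1 h2 hE24
  -- basic counts
  have hτinj : Function.Injective τ := by
    intro a b hab
    rw [← hτ a, ← hτ b]
    exact congrArg τ hab
  have hMτ : ∀ x, τ x ≠ x → x ∉ M → τ x ∈ M := by
    intro x hx hxM
    by_contra h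
    exact hxM ((hM2 x hx).2 h)
  have hMτ' : ∀ x, x ∈ M → τ x ∉ M := fun x hx => (hM2 x (hM1 x hx)).1 hx
  have hτne : ∀ x, τ x ≠ x → τ (τ x) ≠ τ x := by
    intro x hx h
    exact hx (hτinj h)
  have hnf : (univ.filter (fun x => τ x ≠ x)).card = 2 * M.card := by
    have h3 : (univ.filter (fun x => τ x ≠ x)) = M ∪ M.image τ := by
      ext x
      simp only [mem_filter, mem_univ, true_and, mem_union, mem_image]
      constructor
      · intro hx
        by_cases hxM : x ∈ M
        · exact Or.inl hxM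
        · exact Or.inr ⟨τ x, hMτ x hx hxM, hτ x⟩
      · rintro (h | ⟨y, h, rfl⟩)
        · exact hM1 x h
        · exact hτne y (hM1 y h)
    rw [h3, card_union_of_disjoint, card_image_of_injective _ hτinj]
    · omega
    · rw [disjoint_left]
      intro x hx hx2
      obtain ⟨y, hy, rfl⟩ := mem_image.1 hx2
      exact hMτ' y hy hx
  have hdang : (univ.filter (fun x => τ x ≠ x ∧ Dang τ E2 E4 x)).card =
      2 * (M.filter (fun x => Dang τ E2 E4 x)).card := by
    have h3 : (univ.filter (fun x => τ x ≠ x ∧ Dang τ E2 E4 x)) =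
        (M.filter (fun x => Dang τ E2 E4 x)) ∪ (M.filter (fun x => Dang τ E2 E4 x)).image τ := by
      ext x
      simp only [mem_filter, mem_univ, true_and, mem_union, mem_image]
      constructor
      · rintro ⟨hx, hx2⟩
        by_cases hxM : x ∈ M
        · exact Or.inl ⟨hxM, hx2⟩
        · exact Or.inr ⟨τ x, ⟨hMτ x hx hxM, (Dang.symm hτ).2 hx2⟩, hτ x⟩
      · rintro (h | ⟨y, h, rfl⟩)
        · exact ⟨hM1 x h.1, h.2⟩
        · exact ⟨hτne y (hM1 y h.1), (Dang.symm hτ).2 h.2⟩
    rw [h3, card_union_of_disjoint, card_image_of_injective _ hτinj]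
    · omega
    · rw [disjoint_left]
      intro x hx hx2
      obtain ⟨y, hy, rfl⟩ := mem_image.1 hx2
      exact hMτ' y (mem_filter.1 hy).1 (mem_filter.1 hx).1
  have hfix : (univ.filter (fun x => τ x = x)).card + 2 * M.card = Fintype.card N := by
    rw [← hnf, card_filter_add_card_filter_not]
    rfl
  -- names
  set e2 := (univ.filter (fun x => τ x ≠ x ∧ O x ∧ E2 (τ x))).card with he2
  obtain ⟨e, he⟩ : ∃ e, (M.filter (fun x => Dang τ E2 E4 x)).card = e := ⟨_, rfl⟩
  obtain ⟨o, ho⟩ : ∃ o, (univ.filter (fun x => O x)).card = o := ⟨_, rfl⟩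
  obtain ⟨s, hsM⟩ : ∃ s, M.card = s := ⟨_, rfl⟩
  obtain ⟨x0, hx0⟩ : ∃ x0, (univ.filter (fun x => O x ∧ (τ x = x ∨ Dang τ E2 E4 x))).card = x0 :=
    ⟨_, rfl⟩
  obtain ⟨Y, hY⟩ : ∃ Y, (univ.filter (fun x => τ x = x)).card = Y := ⟨_, rfl⟩
  obtain ⟨Zp, hZp⟩ : ∃ Zp, (M.filter (fun x => ¬ Dang τ E2 E4 x ∧ O x)).card = Zp := ⟨_, rfl⟩
  obtain ⟨Zm, hZm⟩ : ∃ Zm, (M.filter (fun x => ¬ Dang τ E2 E4 x ∧ O (τ x))).card = Zm := ⟨_, rfl⟩
  have hcount := card_outer τ hτ O E2 E4 M hM1 hM2
  rw [ho, hx0, hZp, hZm] at hcount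
  rw [hY, hsM] at hfix
  rw [hdang, he, ho, hnf, hsM] at hs
  -- number of fixed points
  have hYo : (∀ x, τ x = x → (O (q x) ∧ z (q x) = x)) → Y = o := by
    intro h
    rw [← hY, ← ho]
    symm
    apply card_bij (fun v _ => z v)
    · intro v hv
      exact mem_filter.2 ⟨mem_univ _, (hz v (mem_filter.1 hv).2).2.1⟩
    · intro v hv w hw hvw
      rw [← (hz v (mem_filter.1 hv).2).1, ← (hz w (mem_filter.1 hw).2).1]
      exact congrArg q hvw
    · intro x hx
      have h3 := h x (mem_filter.1 hx).2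
      exact ⟨q x, mem_filter.2 ⟨mem_univ _, h3.1⟩, h3.2⟩
  have hYo' : ∀ x, τ x = x → ¬ (O (q x) ∧ z (q x) = x) → Y = o + 1 := by
    intro x hx hx2
    have h3 : ((univ.filter (fun x => τ x = x)).erase x).card = o := by
      rw [← ho]
      symm
      apply card_bij (fun v _ => z v)
      · intro v hv
        have h4 := hz v (mem_filter.1 hv).2
        refine mem_erase.2 ⟨?_, mem_filter.2 ⟨mem_univ _, h4.2.1⟩⟩
        intro h5
        apply hx2
        rw [← h5, h4.1]
        exact ⟨(mem_filter.1 hv).2, rfl⟩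
      · intro v hv w hw hvw
        rw [← (hz v (mem_filter.1 hv).2).1, ← (hz w (mem_filter.1 hw).2).1]
        exact congrArg q hvw
      · intro y hy
        have h5 := (mem_filter.1 (mem_of_mem_erase hy)).2
        by_cases h3 : O (q y) ∧ z (q y) = y
        · exact ⟨q y, mem_filter.2 ⟨mem_univ _, h3.1⟩, h3.2⟩
        · exact absurd (hX x y hx h5 hx2 h3) (ne_of_mem_erase hy).symm
    have h6 : x ∈ univ.filter (fun x => τ x = x) := mem_filter.2 ⟨mem_univ _, hx⟩
    rw [card_erase_of_mem h6, hY] at h3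
    have h4 : 0 < Y := by
      rw [← hY]
      exact card_pos.2 ⟨x, mem_filter.2 ⟨mem_univ _, hx⟩⟩
    omega
  have hYle : o ≤ Y ∧ Y ≤ o + 1 := by
    by_cases h : ∀ x, τ x = x → (O (q x) ∧ z (q x) = x)
    · have := hYo h
      omega
    · push Not at h
      obtain ⟨x, hx, hx2⟩ := h
      have := hYo' x hx (by tauto)
      omega
  -- positions
  obtain ⟨pos, p1, p2, p3, p4, p5, p6, p7⟩ := exists_pos τ hτ O E2 E4 M hM1 hM2 e e2 o x0 s
    he ho hx0 hsM hP1 hP2 (by omega)
  set Outp := M.filter (fun x => ¬ Dang τ E2 E4 x ∧ O x) with hOutp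
  set Outm := M.filter (fun x => ¬ Dang τ E2 E4 x ∧ O (τ x)) with hOutm
  set I0 : N → ℤ := fun v => if v ∈ M then (cnt Outp pos v : ℤ) else
    (o : ℤ) + 1 - cnt Outm pos (τ v) with hI0
  set G1 := univ.filter (fun x => O x ∧ (τ x = x ∨ Dang τ E2 E4 x)) with hG1
  have hOut : ∀ v, O v → v ∉ G1 → (v ∈ M ∧ v ∈ Outp ∧ I0 v = cnt Outp pos v) ∨
      (v ∉ M ∧ τ v ∈ Outm ∧ I0 v = (o : ℤ) + 1 - cnt Outm pos (τ v)) := by
    intro v hv hvG
    have h3 : ¬ (τ v = v ∨ Dang τ E2 E4 v) := by
      intro h3
      exact hvG (mem_filter.2 ⟨mem_univ _, hv, h3⟩)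
    push Not at h3
    by_cases hvM : v ∈ M
    · exact Or.inl ⟨hvM, mem_filter.2 ⟨hvM, h3.2, hv⟩, by simp only [hI0, hvM, if_true]⟩
    · refine Or.inr ⟨hvM, mem_filter.2 ⟨hMτ v h3.1 hvM, ?_, ?_⟩, by simp only [hI0, hvM, if_false]⟩
      · rw [Dang.symm hτ]
        exact h3.2
      · rw [hτ]
        exact hv
  have hI0r : ∀ v, O v → v ∉ G1 → (1 ≤ I0 v ∧ I0 v ≤ Zp) ∨ (Zp + x0 + 1 ≤ I0 v ∧ I0 v ≤ o) := by
    intro v hv hvG
    rcases hOut v hv hvG with ⟨_, h3, h4⟩ | ⟨_, h3, h4⟩
    · left
      have h5 := cnt_pos (p := pos) h3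
      have h6 := cnt_le (A := Outp) (p := pos) v
      rw [h4]
      omega
    · right
      have h5 := cnt_pos (p := pos) h3
      have h6 := cnt_le (A := Outm) (p := pos) (τ v)
      rw [h4]
      omega
  set k : N → ℤ := fun v => if τ v = v then
      (if O (q v) ∧ z (q v) = v then I0 (q v) else Y) else
      (if v ∈ M then (Y : ℤ) + pos v else 1 - pos (τ v)) with hk
  obtain ⟨Iq, hIq1, hIq2, hIq3⟩ := queue d z x0 G1 k (Zp + 1) hx0 (by
    intro u hu
    exact (hz u (mem_filter.1 hu).2.1).2.2) (by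
    intro v hv hvb
    rw [mem_filter] at hv
    by_cases hvf : τ v = v
    · by_cases hvq : O (q v) ∧ z (q v) = v
      · have h3 : k v = I0 (q v) := by simp only [hk, hvf, hvq, if_true, and_self]
        have h4 : q v ∉ G1 := fun h => hvb _ h hvq.2
        rw [h3]
        rcases hI0r (q v) hvq.1 h4 with h5 | h5
        · left; omega
        · right; omega
      · have h3 : k v = Y := by simp only [hk, hvf, hvq, if_true, if_false]
        have h4 := hYo' v hvf hvq
        right
        omega
    · by_cases hvM : v ∈ M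
      · have h3 : k v = (Y : ℤ) + pos v := by simp only [hk, hvf, hvM, if_true, if_false]
        have h4 := p2 v hvM
        right
        omega
      · have h3 : k v = 1 - pos (τ v) := by simp only [hk, hvf, hvM, if_false]
        have h4 := p2 (τ v) (hMτ v hvf hvM)
        left
        omega)
  set I : N → ℤ := fun v => if v ∈ G1 then Iq v else I0 v with hI
  have hIG : ∀ v, v ∈ G1 → I v = Iq v := by
    intro v hv
    simp only [hI, hv, if_true]
  have hIO : ∀ v, v ∉ G1 → I v = I0 v := by
    intro v hv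
    simp only [hI, hv, if_false]
  have hIr : ∀ v, O v → 1 ≤ I v ∧ I v ≤ o := by
    intro v hv
    by_cases hvG : v ∈ G1
    · rw [hIG v hvG]
      have := hIq1 v hvG
      omega
    · rw [hIO v hvG]
      have := hI0r v hv hvG
      omega
  have hIinj : ∀ v w, O v → O w → I v = I w → v = w := by
    intro v w hv hw hvw
    by_cases hvG : v ∈ G1
    · have h3 := hIq1 v hvG
      rw [hIG v hvG] at hvw
      by_cases hwG : w ∈ G1
      · rw [hIG w hwG] at hvw
        exact hIq2 v hvG w hwG hvw
      · rw [hIO w hwG] at hvw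
        have h4 := hI0r w hw hwG
        omega
    · rw [hIO v hvG] at hvw
      have h3 := hI0r v hv hvG
      by_cases hwG : w ∈ G1
      · rw [hIG w hwG] at hvw
        have h4 := hIq1 w hwG
        omega
      · rw [hIO w hwG] at hvw
        have h4 := hI0r w hw hwG
        rcases hOut v hv hvG with ⟨a1, a2, a3⟩ | ⟨a1, a2, a3⟩
        · rcases hOut w hw hwG with ⟨b1, b2, b3⟩ | ⟨b1, b2, b3⟩
          · rcases lt_trichotomy (pos v) (pos w) with h5 | h5 | h5
            · have := cnt_lt a2 h5
              omega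
            · exact p1 v a1 w b1 h5
            · have := cnt_lt b2 h5
              omega
          · exfalso
            have h5 := cnt_pos (p := pos) b2
            have h6 := cnt_le (A := Outm) (p := pos) (τ w)
            have h7 := cnt_pos (p := pos) a2
            have h8 := cnt_le (A := Outp) (p := pos) v
            omega
        · rcases hOut w hw hwG with ⟨b1, b2, b3⟩ | ⟨b1, b2, b3⟩
          · exfalso
            have h5 := cnt_pos (p := pos) b2
            have h6 := cnt_le (A := Outm) (p := pos) (τ v)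
            have h7 := cnt_pos (p := pos) a2
            have h8 := cnt_le (A := Outp) (p := pos) w
            omega
          · have h9 := (mem_filter.1 a2).1
            have h10 := (mem_filter.1 b2).1
            apply hτinj
            rcases lt_trichotomy (pos (τ v)) (pos (τ w)) with h5 | h5 | h5
            · have := cnt_lt a2 h5
              omega
            · exact p1 _ h9 _ h10 h5
            · have := cnt_lt b2 h5
              omega
  -- the labelling
  set f : N → ℤ := fun x => if τ x = x then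
      (if O (q x) ∧ z (q x) = x then s + I (q x) else s + Y) else
      (if x ∈ M then (s : ℤ) + Y + pos x else s + 1 - pos (τ x)) with hf
  have f1 : ∀ x, τ x = x → O (q x) ∧ z (q x) = x → f x = s + I (q x) := by
    intro x hx hx2
    simp only [hf, hx, hx2, if_true, and_self]
  have f2 : ∀ x, τ x = x → ¬ (O (q x) ∧ z (q x) = x) → f x = s + Y := by
    intro x hx hx2
    simp only [hf, hx, hx2, if_true, if_false]
  have f3 : ∀ x, x ∈ M → f x = (s : ℤ) + Y + pos x := by
    intro x hx
    have hx1 := hM1 x hx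
    simp only [hf, hx, hx1, if_true, if_false]
  have f4 : ∀ x, τ x ≠ x → x ∉ M → f x = (s : ℤ) + 1 - pos (τ x) := by
    intro x hx hx2
    simp only [hf, hx, hx2, if_false]
  have fz : ∀ v, O v → f (z v) = s + I v := by
    intro v hv
    have h3 := hz v hv
    rw [f1 (z v) h3.2.1 (by rw [h3.1]; exact ⟨hv, rfl⟩), h3.1]
  have ffix : ∀ x, τ x = x → s + 1 ≤ f x ∧ f x ≤ s + Y := by
    intro x hx
    by_cases hx2 : O (q x) ∧ z (q x) = x
    · rw [f1 x hx hx2]
      have := hIr (q x) hx2.1
      omega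
    · rw [f2 x hx hx2]
      have := hYo' x hx hx2
      omega
  have fM : ∀ x, x ∈ M → s + Y + 1 ≤ f x ∧ f x ≤ 2 * s + Y := by
    intro x hx
    rw [f3 x hx]
    have := p2 x hx
    omega
  have fM' : ∀ x, τ x ≠ x → x ∉ M → 1 ≤ f x ∧ f x ≤ s := by
    intro x hx hx2
    rw [f4 x hx hx2]
    have := p2 (τ x) (hMτ x hx hx2)
    omega
  have hfinj : ∀ x y, f x = f y → x = y := by
    intro x y hxy
    by_cases hx : τ x = x
    · have a1 := ffix x hx
      by_cases hy : τ y = y
      · by_cases hx2 : O (q x) ∧ z (q x) = x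
        · rw [f1 x hx hx2] at hxy
          by_cases hy2 : O (q y) ∧ z (q y) = y
          · rw [f1 y hy hy2] at hxy
            have h3 := hIinj (q x) (q y) hx2.1 hy2.1 (by omega)
            rw [← hx2.2, ← hy2.2, h3]
          · rw [f2 y hy hy2] at hxy
            have h3 := hYo' y hy hy2
            have h4 := hIr (q x) hx2.1
            omega
        · rw [f2 x hx hx2] at hxy
          have h3 := hYo' x hx hx2
          by_cases hy2 : O (q y) ∧ z (q y) = y
          · rw [f1 y hy hy2] at hxy
            have h4 := hIr (q y) hy2.1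
            omega
          · exact hX x y hx hy hx2 hy2
      · exfalso
        by_cases hyM : y ∈ M
        · have := fM y hyM
          omega
        · have := fM' y hy hyM
          omega
    · by_cases hxM : x ∈ M
      · have a1 := fM x hxM
        by_cases hy : τ y = y
        · have := ffix y hy
          omega
        · by_cases hyM : y ∈ M
          · rw [f3 x hxM, f3 y hyM] at hxy
            exact p1 x hxM y hyM (by omega)
          · have := fM' y hy hyM
            omega
      · have a1 := fM' x hx hxM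
        by_cases hy : τ y = y
        · have := ffix y hy
          omega
        · by_cases hyM : y ∈ M
          · have := fM y hyM
            omega
          · rw [f4 x hx hxM, f4 y hy hyM] at hxy
            exact hτinj (p1 _ (hMτ x hx hxM) _ (hMτ y hy hyM) (by omega))
  -- the values of `f v + f (z v)`
  have hmem1 : ∀ v, v ∈ Outp → v ∈ M ∧ ¬ Dang τ E2 E4 v ∧ O v := fun v hv => mem_filter.1 hv
  have hmem2 : ∀ v, v ∈ Outm → v ∈ M ∧ ¬ Dang τ E2 E4 v ∧ O (τ v) := fun v hv => mem_filter.1 hv
  have TP : ∀ v, v ∈ Outp → v ∉ G1 → f v + f (z v) = 2 * s + Y + (pos v + cnt Outp pos v) ∧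
      e + x0 + 1 + Zp ≤ pos v + cnt Outp pos v ∧ pos v + cnt Outp pos v ≤ e + o + e2 + 1 := by
    intro v hv hvG
    obtain ⟨a1, a2, a3⟩ := hmem1 v hv
    refine ⟨?_, ?_, ?_⟩
    · rw [fz v a3, f3 v a1, hIO v hvG]
      have : I0 v = cnt Outp pos v := by simp only [hI0, a1, if_true]
      rw [this]
      ring
    · rw [← hZp]
      exact cnt_lower (fun x hx y hy h => p1 x (hmem1 x hx).1 y (hmem1 y hy).1 h)
        (fun x hx => (p4 x (hmem1 x hx).1 (hmem1 x hx).2.1 (hmem1 x hx).2.2).1) hv
    · exact cnt_upper (fun x hx y hy h => p1 x (hmem1 x hx).1 y (hmem1 y hy).1 h)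
        (fun x hx => (p4 x (hmem1 x hx).1 (hmem1 x hx).2.1 (hmem1 x hx).2.2).2) hv
  have TM : ∀ v, O v → τ v ∈ Outm → v ∉ G1 →
      f v + f (z v) = 2 * s + o + 2 - (pos (τ v) + cnt Outm pos (τ v)) ∧
      e + x0 + 1 + Zm ≤ pos (τ v) + cnt Outm pos (τ v) ∧
      pos (τ v) + cnt Outm pos (τ v) ≤ e + o + e2 := by
    intro v hvO hv hvG
    obtain ⟨a1, a2, a3⟩ := hmem2 _ hv
    have a4 : v ∉ M := by
      have := hMτ' _ a1
      rwa [hτ] at this
    have a5 : τ v ≠ v := by
      intro h
      rw [h] at a1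
      exact a4 a1
    refine ⟨?_, ?_, ?_⟩
    · rw [fz v hvO, f4 v a5 a4, hIO v hvG]
      have : I0 v = (o : ℤ) + 1 - cnt Outm pos (τ v) := by simp only [hI0, a4, if_false]
      rw [this]
      ring
    · rw [← hZm]
      exact cnt_lower (fun x hx y hy h => p1 x (hmem2 x hx).1 y (hmem2 y hy).1 h)
        (fun x hx => (p5 x (hmem2 x hx).1 (hmem2 x hx).2.1 (hmem2 x hx).2.2).1) hv
    · have h3 := cnt_upper (b := e + o + e2 - 1)
        (fun x hx y hy h => p1 x (hmem2 x hx).1 y (hmem2 y hy).1 h)
        (fun x hx => by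
          have := (p5 x (hmem2 x hx).1 (hmem2 x hx).2.1 (hmem2 x hx).2.2).2
          omega) hv
      have h4 := (p5 _ a1 a2 a3)
      omega
  have TG : ∀ v, v ∈ G1 → 2 * (s : ℤ) + 2 - e + Zp ≤ f v + f (z v) ∧
      f v + f (z v) ≤ 2 * (s : ℤ) + Y + e + Zp + x0 := by
    intro v hvG
    have h3 := mem_filter.1 hvG
    have h4 := hIq1 v hvG
    rw [fz v h3.2.1, hIG v hvG]
    by_cases hvf : τ v = v
    · have := ffix v hvf
      omega
    · have h5 : Dang τ E2 E4 v := by
        rcases h3.2.2 with h | h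
        · exact absurd h hvf
        · exact h
      by_cases hvM : v ∈ M
      · rw [f3 v hvM]
        have := p3 v hvM h5
        omega
      · rw [f4 v hvf hvM]
        have := p3 (τ v) (hMτ v hvf hvM) ((Dang.symm hτ).2 h5)
        omega
  -- keys
  have hkey : ∀ v ∈ G1, ∀ w ∈ G1, f v - s < f w - s → Iq v < Iq w := by
    apply hIq3 (fun v => f v - s)
    · intro u hu
      have h3 := mem_filter.1 hu
      show f (z u) - s = Iq u
      rw [fz u h3.2.1, hIG u hu]
      ring
    · intro v hv hvb
      show f v - s = k v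
      by_cases hvf : τ v = v
      · by_cases hvq : O (q v) ∧ z (q v) = v
        · have h3 : k v = I0 (q v) := by simp only [hk, hvf, hvq, if_true, and_self]
          have h4 : q v ∉ G1 := fun h => hvb _ h hvq.2
          rw [h3, f1 v hvf hvq, hIO _ h4]
          ring
        · have h3 : k v = Y := by simp only [hk, hvf, hvq, if_true, if_false]
          rw [h3, f2 v hvf hvq]
          ring
      · by_cases hvM : v ∈ M
        · have h3 : k v = (Y : ℤ) + pos v := by simp only [hk, hvf, hvM, if_true, if_false]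
          rw [h3, f3 v hvM]
          ring
        · have h3 : k v = 1 - pos (τ v) := by simp only [hk, hvf, hvM, if_false]
          rw [h3, f4 v hvf hvM]
          ring
  refine ⟨f, e + o + e2, hfinj, ?_, ?_, ?_, ?_, ?_, ?_, ?_⟩
  · intro x
    by_cases hx : τ x = x
    · have := ffix x hx
      omega
    · by_cases hxM : x ∈ M
      · have := fM x hxM
        omega
      · have := fM' x hx hxM
        omega
  · intro x hx
    by_cases hxM : x ∈ M
    · rw [f3 x hxM, f4 (τ x) (hτne x hx) (hMτ' x hxM), hτ]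
      omega
    · rw [f4 x hx hxM, f3 (τ x) (hMτ x hx hxM)]
      omega
  · intro v w hv hw hvw
    by_cases hvG : v ∈ G1
    · have a1 := TG v hvG
      by_cases hwG : w ∈ G1
      · rw [fz v hv, fz w hw, hIG v hvG, hIG w hwG] at hvw
        rcases lt_trichotomy (f v) (f w) with h5 | h5 | h5
        · have := hkey v hvG w hwG (by omega)
          omega
        · exact hfinj v w h5
        · have := hkey w hwG v hvG (by omega)
          omega
      · exfalso
        rcases hOut w hw hwG with ⟨b1, b2, b3⟩ | ⟨b1, b2, b3⟩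
        · have := TP w b2 hwG
          omega
        · have := TM w hw b2 hwG
          omega
    · rcases hOut v hv hvG with ⟨a1, a2, a3⟩ | ⟨a1, a2, a3⟩
      · have a4 := TP v a2 hvG
        by_cases hwG : w ∈ G1
        · have := TG w hwG
          omega
        · rcases hOut w hw hwG with ⟨b1, b2, b3⟩ | ⟨b1, b2, b3⟩
          · have b4 := TP w b2 hwG
            rcases lt_trichotomy (pos v) (pos w) with h5 | h5 | h5
            · have := cnt_add_lt (fun x hx y hy h => p1 x (hmem1 x hx).1 y (hmem1 y hy).1 h)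
                (fun x hx y hy => p6 x (hmem1 x hx).1 y (hmem1 y hy).1 (hmem1 x hx).2.1
                  (hmem1 y hy).2.1 (hmem1 x hx).2.2 (hmem1 y hy).2.2) a2 b2 h5
              omega
            · exact p1 v a1 w b1 h5
            · have := cnt_add_lt (fun x hx y hy h => p1 x (hmem1 x hx).1 y (hmem1 y hy).1 h)
                (fun x hx y hy => p6 x (hmem1 x hx).1 y (hmem1 y hy).1 (hmem1 x hx).2.1
                  (hmem1 y hy).2.1 (hmem1 x hx).2.2 (hmem1 y hy).2.2) b2 a2 h5
              omega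
          · have b4 := TM w hw b2 hwG
            have b5 := hIr w hw
            omega
      · have a4 := TM v hv a2 hvG
        by_cases hwG : w ∈ G1
        · have := TG w hwG
          omega
        · rcases hOut w hw hwG with ⟨b1, b2, b3⟩ | ⟨b1, b2, b3⟩
          · have b4 := TP w b2 hwG
            have b5 := hIr w hw
            omega
          · have b4 := TM w hw b2 hwG
            apply hτinj
            rcases lt_trichotomy (pos (τ v)) (pos (τ w)) with h5 | h5 | h5
            · have := cnt_add_lt (fun x hx y hy h => p1 x (hmem2 x hx).1 y (hmem2 y hy).1 h)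
                (fun x hx y hy => p7 x (hmem2 x hx).1 y (hmem2 y hy).1 (hmem2 x hx).2.1
                  (hmem2 y hy).2.1 (hmem2 x hx).2.2 (hmem2 y hy).2.2) a2 b2 h5
              omega
            · exact p1 _ (hmem2 _ a2).1 _ (hmem2 _ b2).1 h5
            · have := cnt_add_lt (fun x hx y hy h => p1 x (hmem2 x hx).1 y (hmem2 y hy).1 h)
                (fun x hx y hy => p7 x (hmem2 x hx).1 y (hmem2 y hy).1 (hmem2 x hx).2.1
                  (hmem2 y hy).2.1 (hmem2 x hx).2.2 (hmem2 y hy).2.2) b2 a2 h5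
              omega
  · omega
  · intro v hv
    by_cases hvG : v ∈ G1
    · have := TG v hvG
      omega
    · rcases hOut v hv hvG with ⟨a1, a2, a3⟩ | ⟨a1, a2, a3⟩
      · have := TP v a2 hvG
        omega
      · have := TM v hv a2 hvG
        omega
  · intro x hx
    by_cases hxf : τ x = x
    · have := ffix x hxf
      omega
    · by_cases hxM : x ∈ M
      · have h3 : Dang τ E2 E4 x := by
          by_contra h
          exact hME2 x hxM h hx
        have h4 := p3 x hxM h3
        rw [f3 x hxM]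
        omega
      · have := fM' x hxf hxM
        omega
  · intro x hx
    have h3 : Dang τ E2 E4 x := Or.inl hx
    by_cases hxf : τ x = x
    · have := ffix x hxf
      omega
    · by_cases hxM : x ∈ M
      · have h4 := p3 x hxM h3
        have h5 := p2 x hxM
        rw [f3 x hxM]
        omega
      · have h4 := p3 (τ x) (hMτ x hxf hxM) ((Dang.symm hτ).2 h3)
        have h5 := p2 (τ x) (hMτ x hxf hxM)
        rw [f4 x hxf hxM]
        omega

theorem core {N : Type} [Fintype N] (τ : N → N) (hτ : ∀ x, τ (τ x) = x)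
    (O E2 E4 : N → Prop) (h1 : ∀ x, O x → ¬ E2 x) (h2 : ∀ x, O x → ¬ E4 x)
    (hE24 : ∀ x, E2 x → ¬ E4 x)
    (z q : N → N) (d : N → ℕ)
    (hz : ∀ v, O v → q (z v) = v ∧ τ (z v) = z v ∧ d v < d (z v))
    (hX : ∀ x y, τ x = x → τ y = y → ¬ (O (q x) ∧ z (q x) = x) → ¬ (O (q y) ∧ z (q y) = y) →
      x = y)
    (hs : 2 * (univ.filter (fun x => τ x ≠ x ∧ Dang τ E2 E4 x)).card +
      2 * (univ.filter (fun x => τ x ≠ x ∧ O x ∧ E2 (τ x))).card +
      2 * (univ.filter (fun x => O x)).card ≤ (univ.filter (fun x => τ x ≠ x)).card) :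
    ∃ (f : N → ℕ) (D : ℕ), (∀ x y, f x = f y → x = y) ∧
      (∀ x, 1 ≤ f x ∧ f x ≤ Fintype.card N) ∧
      (∀ x, τ x ≠ x → f x + f (τ x) = Fintype.card N + 1) ∧
      (∀ v w, O v → O w → f v + f (z v) = f w + f (z w) → v = w) ∧
      2 * D ≤ Fintype.card N ∧
      (∀ v, O v → Fintype.card N + 1 ≤ f v + f (z v) + D ∧
        f v + f (z v) ≤ Fintype.card N + 1 + D) ∧
      (∀ x, E2 x → f x + D ≤ Fintype.card N) ∧
      (∀ x, E4 x → D < f x ∧ f x + D ≤ Fintype.card N) := by
  obtain ⟨f, D, a1, a2, a3, a4, a5, a6, a7, a8⟩ :=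
    core_int τ hτ O E2 E4 h1 h2 hE24 z q d hz hX hs
  have hf : ∀ x, ((f x).toNat : ℤ) = f x := by
    intro x
    have := a2 x
    omega
  refine ⟨fun x => (f x).toNat, D, ?_, ?_, ?_, ?_, ?_, ?_, ?_, ?_⟩
  · intro x y hxy
    apply a1
    rw [← hf x, ← hf y]
    exact congrArg _ hxy
  · intro x
    have := hf x
    have := a2 x
    dsimp only
    omega
  · intro x hx
    have := hf x
    have := hf (τ x)
    have := a3 x hx
    dsimp only
    omega
  · intro v w hv hw h
    apply a4 v w hv hw
    have := hf v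
    have := hf (z v)
    have := hf w
    have := hf (z w)
    dsimp only at h
    omega
  · omega
  · intro v hv
    have := hf v
    have := hf (z v)
    have := a6 v hv
    dsimp only
    omega
  · intro x hx
    have := hf x
    have := a7 x hx
    dsimp only
    omega
  · intro x hx
    have := hf x
    have := a8 x hx
    dsimp only
    omega

end Pool.Agent.TH529
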