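import Pool.Agent.TH529.Invol
import Pool.Agent.TH529.Core

set_option autoImplicit false

/-!
The labelling of a rooted tree, in terms of the parent function.
-/

namespace Pool.Agent.TH529

open Finset Classical

/-- the children of a vertex -/
noncomputable def chl {V : Type} [Fintype V] (r : V) (par : V → V) (v : V) : Finset V :=
  univ.filter (fun x => x ≠ r ∧ par x = v)

theorem rooted {V : Type} [Fintype V] (r : V) (par : V → V) (d : V → ℕ)
    (hd : ∀ x, x ≠ r → d (par x) < d x) (hc : ∀ v, v ≠ r → (chl r par v).card ≠ 1) (m : ℕ)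
    (hm : m + 1 = Fintype.card V) :
    ∃ (f zf : V → ℕ) (D : ℕ),
      (∀ x y, x ≠ r → y ≠ r → f x = f y → x = y) ∧
      (∀ x, x ≠ r → 1 ≤ f x ∧ f x ≤ m) ∧
      (∀ v, Even (chl r par v).card →
        2 * ∑ x ∈ chl r par v, f x = (chl r par v).card * (m + 1)) ∧
      (∀ v, v ≠ r → Odd (chl r par v).card →
        2 * ∑ x ∈ chl r par v, f x = ((chl r par v).card - 1) * (m + 1) + 2 * zf v) ∧
      (∀ v w, v ≠ r → w ≠ r → Odd (chl r par v).card → Odd (chl r par w).card →
        f v + zf v = f w + zf w → v = w) ∧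
      2 * D ≤ m ∧
      (∀ v, v ≠ r → Odd (chl r par v).card → m + 1 ≤ f v + zf v + D ∧ f v + zf v ≤ m + 1 + D) ∧
      (∀ v, v ≠ r → (chl r par v).card = 2 → f v + D ≤ m) ∧
      (∀ v, v ≠ r → Even (chl r par v).card → 4 ≤ (chl r par v).card →
        D < f v ∧ f v + D ≤ m) := by
  set N : Type := {x : V // x ≠ r} with hN
  set C : V → Finset N := fun v => univ.filter (fun x => par x.1 = v) with hC
  have hmemC : ∀ v (x : N), x ∈ C v ↔ par x.1 = v := by
    intro v x
    simp [hC]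
  have hCmap : ∀ v, (C v).map ⟨Subtype.val, Subtype.val_injective⟩ = chl r par v := by
    intro v
    ext x
    simp only [mem_map, Function.Embedding.coeFn_mk, chl, mem_filter, mem_univ, true_and]
    constructor
    · rintro ⟨y, hy, rfl⟩
      exact ⟨y.2, (hmemC v y).1 hy⟩
    · rintro ⟨h1, h2⟩
      exact ⟨⟨x, h1⟩, (hmemC v _).2 h2, rfl⟩
  have hCc : ∀ v, (C v).card = (chl r par v).card := by
    intro v
    rw [← hCmap v, card_map]
  have hCs : ∀ v (g : V → ℕ), ∑ x ∈ chl r par v, g x = ∑ x ∈ C v, g x.1 := by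
    intro v g
    rw [← hCmap v, sum_map]
    rfl
  have hcard : Fintype.card N = m := by
    have h1 : Fintype.card N = Fintype.card V - 1 := Set.card_ne_eq r
    omega
  have hex : ∀ v, ∃ t : N → N, (∀ x ∈ C v, t x ∈ C v ∧ t (t x) = x) ∧
      (∀ x ∈ C v, ∀ y ∈ C v, t x = x → t y = y → x = y) ∧
      ((∃ x ∈ C v, t x = x) ↔ Odd (C v).card) := fun v => exists_invol _ (C v) rfl
  choose t ht1 ht2 ht3 using hex
  set τ : N → N := fun x => t (par x.1) x with hτdef
  have hself : ∀ x : N, x ∈ C (par x.1) := fun x => (hmemC _ _).2 rfl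
  have hτv : ∀ v, ∀ x ∈ C v, τ x = t v x := by
    intro v x hx
    rw [hmemC] at hx
    simp only [hτdef]
    rw [hx]
  have hτC : ∀ v, ∀ x ∈ C v, τ x ∈ C v := by
    intro v x hx
    rw [hτv v x hx]
    exact (ht1 v x hx).1
  have hτ : ∀ x, τ (τ x) = x := by
    intro x
    have h1 := hself x
    rw [hτv _ _ (hτC _ _ h1), hτv _ _ h1]
    exact (ht1 _ x h1).2
  have hfixu : ∀ v, ∀ x ∈ C v, ∀ y ∈ C v, τ x = x → τ y = y → x = y := by
    intro v x hx y hy h1 h2
    rw [hτv v x hx] at h1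
    rw [hτv v y hy] at h2
    exact ht2 v x hx y hy h1 h2
  have hfixe : ∀ v, (∃ x ∈ C v, τ x = x) ↔ Odd (C v).card := by
    intro v
    rw [← ht3 v]
    constructor
    · rintro ⟨x, hx, h⟩
      exact ⟨x, hx, by rw [← hτv v x hx]; exact h⟩
    · rintro ⟨x, hx, h⟩
      exact ⟨x, hx, by rw [hτv v x hx]; exact h⟩
  set O : N → Prop := fun x => Odd (C x.1).card with hO
  set E2 : N → Prop := fun x => (C x.1).card = 2 with hE2
  set E4 : N → Prop := fun x => Even (C x.1).card ∧ 4 ≤ (C x.1).card with hE4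
  have h1 : ∀ x, O x → ¬ E2 x := by
    intro x hx hx2
    simp only [hO, hE2] at hx hx2
    rw [hx2] at hx
    exact absurd hx (by decide)
  have h2 : ∀ x, O x → ¬ E4 x := by
    intro x hx hx2
    exact (Nat.not_even_iff_odd.2 hx) hx2.1
  have hE24 : ∀ x, E2 x → ¬ E4 x := by
    intro x hx hx2
    simp only [hE2, hE4] at hx hx2
    omega
  have hzex : ∀ x : N, ∃ y : N, O x → (y ∈ C x.1 ∧ τ y = y) := by
    intro x
    by_cases hx : O x
    · obtain ⟨y, hy1, hy2⟩ := (hfixe x.1).2 hx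
      exact ⟨y, fun _ => ⟨hy1, hy2⟩⟩
    · exact ⟨x, fun h => absurd h hx⟩
  choose z hz using hzex
  set q : N → N := fun x => if h : par x.1 = r then x else ⟨par x.1, h⟩ with hq
  have hqv : ∀ v : N, ∀ x ∈ C v.1, q x = v := by
    intro v x hx
    rw [hmemC] at hx
    have h3 : par x.1 ≠ r := by
      rw [hx]
      exact v.2
    simp only [hq]
    rw [dif_neg h3]
    exact Subtype.ext hx
  have hzO : ∀ v, O v → q (z v) = v ∧ τ (z v) = z v ∧ d v.1 < d (z v).1 := by
    intro v hv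
    obtain ⟨a1, a2⟩ := hz v hv
    refine ⟨hqv v _ a1, a2, ?_⟩
    have h3 := hd (z v).1 (z v).2
    rw [(hmemC _ _).1 a1] at h3
    exact h3
  have hroot : ∀ x, τ x = x → ¬ (O (q x) ∧ z (q x) = x) → par x.1 = r := by
    intro x hx h
    by_contra hne
    apply h
    have h3 : q x = ⟨par x.1, hne⟩ := by
      simp only [hq]
      rw [dif_neg hne]
    have h4 : O (q x) := by
      rw [h3]
      exact (hfixe (par x.1)).1 ⟨x, hself x, hx⟩
    refine ⟨h4, ?_⟩
    have h5 := hz (q x) h4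
    apply hfixu (par x.1) _ _ x (hself x) h5.2 hx
    rw [h3] at h5 ⊢
    exact h5.1
  have hX : ∀ x y, τ x = x → τ y = y → ¬ (O (q x) ∧ z (q x) = x) →
      ¬ (O (q y) ∧ z (q y) = y) → x = y := by
    intro x y hx hy hx2 hy2
    exact hfixu r x ((hmemC _ _).2 (hroot x hx hx2)) y ((hmemC _ _).2 (hroot y hy hy2)) hx hy
  have hnf : ∀ x : N, (C x.1).card ≤
      (univ.filter (fun y : N => τ y ≠ y ∧ par y.1 = x.1)).card + 1 := by
    intro x
    have h3 := card_nonfixed (C x.1) τ (hfixu x.1)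
    have h4 : (C x.1).filter (fun y => τ y ≠ y) =
        univ.filter (fun y : N => τ y ≠ y ∧ par y.1 = x.1) := by
      ext y
      simp only [mem_filter, hmemC, mem_univ, true_and]
      tauto
    rw [← h4]
    convert h3
  have hnfe : ∀ x : N, Even (C x.1).card → (C x.1).card ≤
      (univ.filter (fun y : N => τ y ≠ y ∧ par y.1 = x.1)).card := by
    intro x hx
    apply card_le_card
    intro y hy
    refine mem_filter.2 ⟨mem_univ _, ?_, (hmemC _ _).1 hy⟩
    intro h
    exact (Nat.not_odd_iff_even.2 hx) ((hfixe x.1).1 ⟨y, hy, h⟩)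
  have hs := count_ineq τ hτ O E2 E4 h1 h2 hE24 (fun y : N => par y.1) (fun y : N => y.1)
    Subtype.val_injective (by
      intro x hx
      have h3 := hnf x
      have h4 : (C x.1).card ≠ 1 := by
        rw [hCc]
        exact hc x.1 x.2
      have h5 : Odd (C x.1).card := hx
      have h6 := h5.pos
      have h7 : (C x.1).card ≠ 2 := by
        intro h
        rw [h] at h5
        exact absurd h5 (by decide)
      have h8 : 2 ≤ (univ.filter (fun y : N => τ y ≠ y ∧ par y.1 = x.1)).card := by omega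
      convert h8) (by
      intro x hx
      have h3 : (C x.1).card = 2 := hx
      have h4 := hnfe x (by rw [h3]; decide)
      have h8 : 2 ≤ (univ.filter (fun y : N => τ y ≠ y ∧ par y.1 = x.1)).card := by omega
      convert h8) (by
      intro x hx
      have h4 := hnfe x hx.1
      have h5 := hx.2
      have h8 : 4 ≤ (univ.filter (fun y : N => τ y ≠ y ∧ par y.1 = x.1)).card := by omega
      convert h8)
  obtain ⟨f, D, b1, b2, b3, b4, b5, b6, b7, b8⟩ :=
    core τ hτ O E2 E4 h1 h2 hE24 z q (fun x => d x.1) hzO hX hs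
  rw [hcard] at b2 b3 b5 b6 b7 b8
  set g : V → ℕ := fun x => if h : x = r then 0 else f ⟨x, h⟩ with hg
  set zf : V → ℕ := fun x => if h : x = r then 0 else f (z ⟨x, h⟩) with hzf
  have hgf : ∀ x (h : x ≠ r), g x = f ⟨x, h⟩ := by
    intro x h
    simp only [hg]
    rw [dif_neg h]
  have hgf' : ∀ x : N, g x.1 = f x := fun x => hgf x.1 x.2
  have hzff : ∀ x (h : x ≠ r), zf x = f (z ⟨x, h⟩) := by
    intro x h
    simp only [hzf]
    rw [dif_neg h]
  have hsumf : ∀ v, ∑ x ∈ chl r par v, g x = ∑ x ∈ C v, f x := by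
    intro v
    rw [hCs]
    exact Finset.sum_congr rfl (fun x _ => hgf' x)
  refine ⟨g, zf, D, ?_, ?_, ?_, ?_, ?_, ?_, ?_, ?_, ?_⟩
  · intro x y hx hy hxy
    rw [hgf x hx, hgf y hy] at hxy
    exact congrArg Subtype.val (b1 _ _ hxy)
  · intro x hx
    rw [hgf x hx]
    exact b2 _
  · intro v hv
    rw [hsumf, ← hCc]
    rw [← hCc] at hv
    apply sum_invol (C v) τ (fun x hx => ⟨hτC v x hx, hτ x⟩) f (m + 1) (fun x _ hx => b3 x hx)
    intro x hx h
    exact (Nat.not_odd_iff_even.2 hv) ((hfixe v).1 ⟨x, hx, h⟩)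
  · intro v hvr hv
    rw [hsumf, ← hCc, hzff v hvr]
    rw [← hCc] at hv
    have h3 := hz ⟨v, hvr⟩ hv
    apply sum_invol_odd (C v) τ (fun x hx => ⟨hτC v x hx, hτ x⟩) f (m + 1)
      (fun x _ hx => b3 x hx) _ h3.1 h3.2
    intro x hx h
    exact hfixu v x hx _ h3.1 h h3.2
  · intro v w hv hw hvO hwO h
    rw [hgf v hv, hgf w hw, hzff v hv, hzff w hw] at h
    rw [← hCc] at hvO hwO
    exact congrArg Subtype.val (b4 ⟨v, hv⟩ ⟨w, hw⟩ hvO hwO h)
  · exact b5
  · intro v hv hvO
    rw [hgf v hv, hzff v hv]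
    rw [← hCc] at hvO
    exact b6 ⟨v, hv⟩ hvO
  · intro v hv hvO
    rw [hgf v hv]
    rw [← hCc] at hvO
    exact b7 ⟨v, hv⟩ hvO
  · intro v hv hvE hv4
    rw [hgf v hv]
    rw [← hCc] at hvE hv4
    exact b8 ⟨v, hv⟩ ⟨hvE, hv4⟩

end Pool.Agent.TH529
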