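import Pool.Agent.TH529.Queue

set_option autoImplicit false

/-!
Choice of the positive side of each pair.
-/

namespace Pool.Agent.TH529

open Finset Classical

/-- `x` belongs to a pair which has to be placed first. -/
def Dang {N : Type} (τ : N → N) (E2 E4 : N → Prop) (x : N) : Prop :=
  E4 x ∨ E4 (τ x) ∨ (E2 x ∧ E2 (τ x))

theorem Dang.symm {N : Type} {τ : N → N} {E2 E4 : N → Prop} (hτ : ∀ x, τ (τ x) = x) {x : N} :
    Dang τ E2 E4 (τ x) ↔ Dang τ E2 E4 x := by
  unfold Dang
  rw [hτ]
  tauto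

theorem exists_orient {N : Type} [Fintype N] (τ : N → N) (hτ : ∀ x, τ (τ x) = x)
    (O E2 E4 : N → Prop) (h1 : ∀ x, O x → ¬ E2 x) (h2 : ∀ x, O x → ¬ E4 x)
    (hE24 : ∀ x, E2 x → ¬ E4 x) :
    ∃ M : Finset N, (∀ x ∈ M, τ x ≠ x) ∧ (∀ x, τ x ≠ x → (x ∈ M ↔ τ x ∉ M)) ∧
      (∀ x ∈ M, ¬ Dang τ E2 E4 x → ¬ E2 x) ∧
      (M.filter (fun x => ¬ Dang τ E2 E4 x ∧ ¬ O x ∧ O (τ x))).card ≤
        (M.filter (fun x => ¬ Dang τ E2 E4 x ∧ O x ∧ ¬ O (τ x))).card ∧
      (M.filter (fun x => ¬ Dang τ E2 E4 x ∧ O x ∧ ¬ O (τ x))).card ≤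
        (M.filter (fun x => ¬ Dang τ E2 E4 x ∧ ¬ O x ∧ O (τ x))).card +
          (univ.filter (fun x => τ x ≠ x ∧ O x ∧ E2 (τ x))).card + 1 := by
  set LO : Finset N := univ.filter (fun x => τ x ≠ x ∧ ¬ Dang τ E2 E4 x ∧ O x ∧ ¬ O (τ x) ∧
    ¬ E2 (τ x)) with hLO
  obtain ⟨A, hA, hAc⟩ := Finset.exists_subset_card_eq (Nat.div_le_self LO.card 2)
  have hAm : ∀ x ∈ A, τ x ≠ x ∧ ¬ Dang τ E2 E4 x ∧ O x ∧ ¬ O (τ x) ∧ ¬ E2 (τ x) := by
    intro x hx
    exact (Finset.mem_filter.1 (hA hx)).2
  set n := Fintype.card N with hn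
  set c : N → ℕ := fun x => if O x then (if x ∈ A then 1 else 3) else if E2 x then 0 else 2 with hc
  set idx : N → ℕ := fun x => (Fintype.equivFin N x).val with hidx
  have hidx1 : ∀ x, idx x < n := fun x => (Fintype.equivFin N x).isLt
  have hidx2 : ∀ x y, idx x = idx y → x = y := fun x y h =>
    (Fintype.equivFin N).injective (Fin.ext h)
  set sc : N → ℕ := fun x => c x * n + idx x with hsc
  have hlt : ∀ x y, c x < c y → sc x < sc y := by
    intro x y h
    have h1 := hidx1 x
    have h2 : (c x + 1) * n ≤ c y * n := Nat.mul_le_mul_right _ h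
    rw [Nat.add_mul, Nat.one_mul] at h2
    show c x * n + idx x < c y * n + idx y
    omega
  have hinj : ∀ x y, sc x = sc y → x = y := by
    intro x y h
    have h3 : c x = c y := by
      rcases lt_trichotomy (c x) (c y) with h4 | h4 | h4
      · exact absurd h (hlt x y h4).ne
      · exact h4
      · exact absurd h (hlt y x h4).ne'
    apply hidx2
    have h5 : c x * n + idx x = c y * n + idx y := h
    rw [h3] at h5
    omega
  set M : Finset N := univ.filter (fun x => sc (τ x) < sc x) with hM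
  have hMm : ∀ x, x ∈ M ↔ sc (τ x) < sc x := by
    intro x
    simp [hM]
  have hcO : ∀ x, O x → x ∈ A → c x = 1 := by
    intro x h3 h4
    simp [hc, h3, h4]
  have hcO' : ∀ x, O x → x ∉ A → c x = 3 := by
    intro x h3 h4
    simp [hc, h3, h4]
  have hcE : ∀ x, ¬ O x → E2 x → c x = 0 := by
    intro x h3 h4
    simp [hc, h3, h4]
  have hcL : ∀ x, ¬ O x → ¬ E2 x → c x = 2 := by
    intro x h3 h4
    simp [hc, h3, h4]
  refine ⟨M, ?_, ?_, ?_, ?_⟩
  · intro x hx h
    rw [hMm, h] at hx
    exact lt_irrefl _ hx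
  · intro x hx
    rw [hMm, hMm, hτ]
    constructor
    · intro h
      exact not_lt.2 h.le
    · intro h
      rcases (not_lt.1 h).lt_or_eq with h3 | h3
      · exact h3
      · exact absurd (hinj _ _ h3) hx
  · intro x hx hd hE
    rw [hMm] at hx
    have hO : ¬ O x := fun h => h1 x h hE
    have hcx := hcE x hO hE
    have hτE : ¬ E2 (τ x) := fun h => hd (Or.inr (Or.inr ⟨hE, h⟩))
    have hcτ : c x < c (τ x) := by
      rw [hcx]
      by_cases h3 : O (τ x)
      · by_cases h4 : τ x ∈ A
        · rw [hcO _ h3 h4]; omega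
        · rw [hcO' _ h3 h4]; omega
      · rw [hcL _ h3 hτE]; omega
    exact absurd (hlt _ _ hcτ) (not_lt.2 hx.le)
  · -- the cardinalities
    set E : Finset N := univ.filter (fun x => τ x ≠ x ∧ O x ∧ E2 (τ x)) with hE
    have hminus : M.filter (fun x => ¬ Dang τ E2 E4 x ∧ ¬ O x ∧ O (τ x)) = A.image τ := by
      ext x
      rw [Finset.mem_filter, hMm, Finset.mem_image]
      constructor
      · rintro ⟨h3, h4, h5, h6⟩
        refine ⟨τ x, ?_, hτ x⟩
        by_contra h7
        have h8 := hcO' _ h6 h7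
        have h9 : c x < c (τ x) := by
          rw [h8]
          by_cases h10 : E2 x
          · rw [hcE _ h5 h10]; omega
          · rw [hcL _ h5 h10]; omega
        exact absurd (hlt _ _ h9) (not_lt.2 h3.le)
      · rintro ⟨y, hy, rfl⟩
        obtain ⟨h3, h4, h5, h6, h7⟩ := hAm y hy
        rw [hτ]
        refine ⟨?_, ?_, h6, h5⟩
        · apply hlt
          rw [hcO _ h5 hy, hcL _ h6 h7]
          omega
        · rw [Dang.symm hτ]
          exact h4
    have hplus : M.filter (fun x => ¬ Dang τ E2 E4 x ∧ O x ∧ ¬ O (τ x)) = E ∪ (LO \ A) := by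
      ext x
      rw [Finset.mem_filter, hMm, Finset.mem_union, Finset.mem_sdiff, hE, hLO, Finset.mem_filter,
        Finset.mem_filter]
      constructor
      · rintro ⟨h3, h4, h5, h6⟩
        have h7 : τ x ≠ x := by
          intro h
          rw [h] at h3
          exact lt_irrefl _ h3
        by_cases h8 : E2 (τ x)
        · exact Or.inl ⟨Finset.mem_univ _, h7, h5, h8⟩
        · refine Or.inr ⟨⟨Finset.mem_univ _, h7, h4, h5, h6, h8⟩, ?_⟩
          intro h9
          have h10 : c x < c (τ x) := by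
            rw [hcO _ h5 h9, hcL _ h6 h8]
            omega
          exact absurd (hlt _ _ h10) (not_lt.2 h3.le)
      · rintro (⟨-, h3, h4, h5⟩ | ⟨⟨-, h3, h4, h5, h6, h7⟩, h8⟩)
        · have h6 : ¬ O (τ x) := fun h => h1 _ h h5
          refine ⟨?_, ?_, h4, h6⟩
          · apply hlt
            rw [hcE _ h6 h5]
            by_cases h7 : x ∈ A
            · rw [hcO _ h4 h7]; omega
            · rw [hcO' _ h4 h7]; omega
          · rintro (h7 | h7 | h7)
            · exact h2 x h4 h7
            · -- `τ x` is both in `E2` and in `E4`: then `x` is dangerous, exclude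
              exact absurd h7 (by
                intro h8
                exact hE24 _ h5 h8)
            · exact h1 x h4 h7.1
        · refine ⟨?_, h4, h5, h6⟩
          apply hlt
          rw [hcO' _ h5 h8, hcL _ h6 h7]
          omega
    have hdisj : Disjoint E (LO \ A) := by
      rw [Finset.disjoint_left]
      intro x hx hx'
      rw [hE, Finset.mem_filter] at hx
      rw [Finset.mem_sdiff, hLO, Finset.mem_filter] at hx'
      exact hx'.1.2.2.2.2.2 hx.2.2.2
    rw [hminus, hplus, Finset.card_union_of_disjoint hdisj, Finset.card_sdiff_of_subset hA,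
      Finset.card_image_of_injective A (Function.LeftInverse.injective hτ), hAc]
    omega

end Pool.Agent.TH529
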