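import Mathlib

set_option autoImplicit false

/-!
Auxiliary combinatorial lemmas for the strongly antimagic labelling of trees.
-/

namespace Pool.Agent.TH529

/-- The queue lemma: `I` is an enumeration of `G` by `l, ..., l + n - 1` which is monotone in the keys,
where the key of `z u` is `I u` and the keys of the other elements of `G` are given. -/
theorem queue {N : Type} [DecidableEq N] (d : N → ℕ) (z : N → N) :
    ∀ (n : ℕ) (G : Finset N) (k : N → ℤ) (l : ℤ), G.card = n →
      (∀ u ∈ G, d u < d (z u)) →
      (∀ v ∈ G, (∀ u ∈ G, z u ≠ v) → k v < l ∨ l + n ≤ k v) →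
      ∃ I : N → ℤ, (∀ v ∈ G, l ≤ I v ∧ I v < l + n) ∧ (∀ v ∈ G, ∀ w ∈ G, I v = I w → v = w) ∧
        (∀ κ : N → ℤ, (∀ u ∈ G, κ (z u) = I u) →
          (∀ v ∈ G, (∀ u ∈ G, z u ≠ v) → κ v = k v) →
          ∀ v ∈ G, ∀ w ∈ G, κ v < κ w → I v < I w) := by
  intro n
  induction n with
  | zero =>
    intro G k l hG _ _
    rw [Finset.card_eq_zero] at hG
    subst hG
    exact ⟨fun _ => 0, by simp, by simp, by simp⟩
  | succ n ih =>
    intro G k l hG hd hb
    have hne : G.Nonempty := by
      rw [← Finset.card_pos]
      omega
    -- there is a base element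
    have hB : (G.filter (fun v => ∀ u ∈ G, z u ≠ v)).Nonempty := by
      obtain ⟨v, hv, hmin⟩ := Finset.exists_min_image G d hne
      refine ⟨v, Finset.mem_filter.2 ⟨hv, ?_⟩⟩
      intro u hu huv
      have h1 := hd u hu
      have h2 := hmin u hu
      rw [huv] at h1
      omega
    by_cases hA : ∃ v ∈ G.filter (fun v => ∀ u ∈ G, z u ≠ v), k v < l
    · -- take the smallest key
      obtain ⟨v, hvB, hmin⟩ := Finset.exists_min_image _ k hB
      have hvG : v ∈ G := (Finset.mem_filter.1 hvB).1
      have hvb : ∀ u ∈ G, z u ≠ v := (Finset.mem_filter.1 hvB).2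
      have hkv : k v < l := by
        obtain ⟨w, hw, hw2⟩ := hA
        exact lt_of_le_of_lt (hmin w hw) hw2
      have hcard : (G.erase v).card = n := by
        rw [Finset.card_erase_of_mem hvG, hG]
        rfl
      obtain ⟨I', h1, h2, h3⟩ := ih (G.erase v) (Function.update k (z v) l) (l + 1) hcard
        (fun u hu => hd u (Finset.mem_of_mem_erase hu)) (by
          intro w hw hwb
          by_cases hwz : w = z v
          · subst hwz
            left
            simp
          · rw [Function.update_of_ne hwz]
            have hwB : ∀ u ∈ G, z u ≠ w := by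
              intro u hu
              by_cases huv : u = v
              · subst huv
                exact fun h => hwz h.symm
              · exact hwb u (Finset.mem_erase.2 ⟨huv, hu⟩)
            rcases hb w (Finset.mem_of_mem_erase hw) hwB with h | h
            · left; omega
            · right; push_cast at h; omega)
      refine ⟨Function.update I' v l, ?_, ?_, ?_⟩
      · intro w hw
        by_cases hwv : w = v
        · subst hwv
          rw [Function.update_self]
          push_cast
          omega
        · rw [Function.update_of_ne hwv]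
          have := h1 w (Finset.mem_erase.2 ⟨hwv, hw⟩)
          push_cast
          omega
      · intro w hw w' hw' heq
        by_cases hwv : w = v
        · by_cases hwv' : w' = v
          · rw [hwv, hwv']
          · exfalso
            rw [hwv, Function.update_self, Function.update_of_ne hwv'] at heq
            have := h1 w' (Finset.mem_erase.2 ⟨hwv', hw'⟩)
            omega
        · by_cases hwv' : w' = v
          · exfalso
            rw [hwv', Function.update_self, Function.update_of_ne hwv] at heq
            have := h1 w (Finset.mem_erase.2 ⟨hwv, hw⟩)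
            omega
          · rw [Function.update_of_ne hwv, Function.update_of_ne hwv'] at heq
            exact h2 w (Finset.mem_erase.2 ⟨hwv, hw⟩) w' (Finset.mem_erase.2 ⟨hwv', hw'⟩) heq
      · intro κ hκ1 hκ2
        have hκv : κ v = k v := hκ2 v hvG hvb
        have h4 := h3 κ (by
          intro u hu
          rw [hκ1 u (Finset.mem_of_mem_erase hu),
            Function.update_of_ne (Finset.ne_of_mem_erase hu)]) (by
          intro w hw hwb
          by_cases hwz : w = z v
          · subst hwz
            rw [hκ1 v hvG, Function.update_self, Function.update_self]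
          · rw [Function.update_of_ne hwz]
            apply hκ2 w (Finset.mem_of_mem_erase hw)
            intro u hu
            by_cases huv : u = v
            · subst huv
              exact fun h => hwz h.symm
            · exact hwb u (Finset.mem_erase.2 ⟨huv, hu⟩))
        intro a ha b hb' hab
        by_cases hav : a = v
        · subst hav
          by_cases hbv : b = a
          · subst hbv
            exact absurd hab (lt_irrefl _)
          · rw [Function.update_self, Function.update_of_ne hbv]
            have := h1 b (Finset.mem_erase.2 ⟨hbv, hb'⟩)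
            omega
        · by_cases hbv : b = v
          · exfalso
            subst hbv
            by_cases haB : ∀ u ∈ G, z u ≠ a
            · have h5 := hmin a (Finset.mem_filter.2 ⟨ha, haB⟩)
              rw [hκ2 a ha haB, hκv] at hab
              omega
            · push Not at haB
              obtain ⟨u, hu, hua⟩ := haB
              have h5 := hκ1 u hu
              rw [hua] at h5
              rw [h5, hκv] at hab
              by_cases huv : u = b
              · rw [huv, Function.update_self] at hab
                omega
              · rw [Function.update_of_ne huv] at hab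
                have := h1 u (Finset.mem_erase.2 ⟨huv, hu⟩)
                omega
          · rw [Function.update_of_ne hav, Function.update_of_ne hbv]
            exact h4 a (Finset.mem_erase.2 ⟨hav, ha⟩) b (Finset.mem_erase.2 ⟨hbv, hb'⟩) hab
    · push Not at hA
      -- take the largest key
      obtain ⟨v, hvB, hmax⟩ := Finset.exists_max_image _ k hB
      have hvG : v ∈ G := (Finset.mem_filter.1 hvB).1
      have hvb : ∀ u ∈ G, z u ≠ v := (Finset.mem_filter.1 hvB).2
      have hkv : l + (n + 1) ≤ k v := by
        rcases hb v hvG hvb with h | h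
        · exact absurd h (not_lt.2 (hA v hvB))
        · push_cast at h
          omega
      have hcard : (G.erase v).card = n := by
        rw [Finset.card_erase_of_mem hvG, hG]
        rfl
      obtain ⟨I', h1, h2, h3⟩ := ih (G.erase v) (Function.update k (z v) (l + n)) l hcard
        (fun u hu => hd u (Finset.mem_of_mem_erase hu)) (by
          intro w hw hwb
          by_cases hwz : w = z v
          · subst hwz
            right
            simp
          · rw [Function.update_of_ne hwz]
            have hwB : ∀ u ∈ G, z u ≠ w := by
              intro u hu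
              by_cases huv : u = v
              · subst huv
                exact fun h => hwz h.symm
              · exact hwb u (Finset.mem_erase.2 ⟨huv, hu⟩)
            rcases hb w (Finset.mem_of_mem_erase hw) hwB with h | h
            · left; omega
            · right; push_cast at h; omega)
      refine ⟨Function.update I' v (l + n), ?_, ?_, ?_⟩
      · intro w hw
        by_cases hwv : w = v
        · subst hwv
          rw [Function.update_self]
          push_cast
          omega
        · rw [Function.update_of_ne hwv]
          have := h1 w (Finset.mem_erase.2 ⟨hwv, hw⟩)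
          push_cast
          omega
      · intro w hw w' hw' heq
        by_cases hwv : w = v
        · by_cases hwv' : w' = v
          · rw [hwv, hwv']
          · exfalso
            rw [hwv, Function.update_self, Function.update_of_ne hwv'] at heq
            have := h1 w' (Finset.mem_erase.2 ⟨hwv', hw'⟩)
            omega
        · by_cases hwv' : w' = v
          · exfalso
            rw [hwv', Function.update_self, Function.update_of_ne hwv] at heq
            have := h1 w (Finset.mem_erase.2 ⟨hwv, hw⟩)
            omega
          · rw [Function.update_of_ne hwv, Function.update_of_ne hwv'] at heq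
            exact h2 w (Finset.mem_erase.2 ⟨hwv, hw⟩) w' (Finset.mem_erase.2 ⟨hwv', hw'⟩) heq
      · intro κ hκ1 hκ2
        have hκv : κ v = k v := hκ2 v hvG hvb
        have h4 := h3 κ (by
          intro u hu
          rw [hκ1 u (Finset.mem_of_mem_erase hu),
            Function.update_of_ne (Finset.ne_of_mem_erase hu)]) (by
          intro w hw hwb
          by_cases hwz : w = z v
          · subst hwz
            rw [hκ1 v hvG, Function.update_self, Function.update_self]
          · rw [Function.update_of_ne hwz]
            apply hκ2 w (Finset.mem_of_mem_erase hw)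
            intro u hu
            by_cases huv : u = v
            · subst huv
              exact fun h => hwz h.symm
            · exact hwb u (Finset.mem_erase.2 ⟨huv, hu⟩))
        intro a ha b hb' hab
        by_cases hbv : b = v
        · subst hbv
          by_cases hav : a = b
          · subst hav
            exact absurd hab (lt_irrefl _)
          · rw [Function.update_self, Function.update_of_ne hav]
            have := h1 a (Finset.mem_erase.2 ⟨hav, ha⟩)
            omega
        · by_cases hav : a = v
          · exfalso
            subst hav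
            by_cases haB : ∀ u ∈ G, z u ≠ b
            · have h5 := hmax b (Finset.mem_filter.2 ⟨hb', haB⟩)
              rw [hκ2 b hb' haB, hκv] at hab
              omega
            · push Not at haB
              obtain ⟨u, hu, hua⟩ := haB
              have h5 := hκ1 u hu
              rw [hua] at h5
              rw [h5, hκv] at hab
              by_cases huv : u = a
              · rw [huv, Function.update_self] at hab
                omega
              · rw [Function.update_of_ne huv] at hab
                have := h1 u (Finset.mem_erase.2 ⟨huv, hu⟩)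
                omega
          · rw [Function.update_of_ne hav, Function.update_of_ne hbv]
            exact h4 a (Finset.mem_erase.2 ⟨hav, ha⟩) b (Finset.mem_erase.2 ⟨hbv, hb'⟩) hab

/-- an injective numbering of a finite set -/
theorem exists_idx {N : Type} (A : Finset N) :
    ∃ g : N → ℕ, (∀ x ∈ A, ∀ y ∈ A, g x = g y → x = y) ∧ ∀ x ∈ A, g x < A.card := by
  classical
  refine ⟨fun x => if h : x ∈ A then (A.equivFin ⟨x, h⟩).val else 0, ?_, ?_⟩
  · intro x hx y hy h
    simp only [hx, hy, dif_pos] at h
    have h1 := A.equivFin.injective (Fin.ext h)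
    exact congrArg Subtype.val h1
  · intro x hx
    simp only [hx, dif_pos]
    exact (A.equivFin ⟨x, hx⟩).isLt

/-- extension of an injective map to a bijection onto `1, ..., s` -/
theorem exists_ext {N : Type} (M B : Finset N) (hB : B ⊆ M) (p : N → ℕ) (s : ℕ)
    (hM : M.card = s) (hinj : ∀ x ∈ B, ∀ y ∈ B, p x = p y → x = y)
    (hr : ∀ x ∈ B, 1 ≤ p x ∧ p x ≤ s) :
    ∃ q : N → ℕ, (∀ x ∈ B, q x = p x) ∧ (∀ x ∈ M, ∀ y ∈ M, q x = q y → x = y) ∧
      ∀ x ∈ M, 1 ≤ q x ∧ q x ≤ s := by
  classical
  set T : Finset ℕ := Finset.Icc 1 s \ B.image p with hT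
  have himg : (B.image p).card = B.card := Finset.card_image_of_injOn (fun x hx y hy h => hinj x hx y hy h)
  have hsub : B.image p ⊆ Finset.Icc 1 s := by
    intro y hy
    obtain ⟨x, hx, rfl⟩ := Finset.mem_image.1 hy
    exact Finset.mem_Icc.2 (hr x hx)
  have hTc : T.card = (M \ B).card := by
    rw [hT, Finset.card_sdiff_of_subset hsub, Finset.card_sdiff_of_subset hB, himg, hM]
    simp
  obtain ⟨g, hg1, hg2⟩ := exists_idx (M \ B)
  rw [← hTc] at hg2
  refine ⟨fun x => if x ∈ B then p x else if h : x ∈ M \ B then
    T.orderEmbOfFin rfl ⟨g x, hg2 x h⟩ else 0, ?_, ?_, ?_⟩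
  · intro x hx
    simp [hx]
  · have hmem : ∀ x (h : x ∈ M \ B), T.orderEmbOfFin rfl ⟨g x, hg2 x h⟩ ∈ T := fun x h =>
      Finset.orderEmbOfFin_mem _ _ _
    intro x hx y hy h
    by_cases hxB : x ∈ B
    · by_cases hyB : y ∈ B
      · simp only [hxB, hyB, if_true] at h
        exact hinj x hxB y hyB h
      · exfalso
        have hyM : y ∈ M \ B := Finset.mem_sdiff.2 ⟨hy, hyB⟩
        simp only [hxB, hyB, if_true, if_false, hyM, dif_pos] at h
        have h1 := hmem y hyM
        rw [← h] at h1
        exact (Finset.mem_sdiff.1 h1).2 (Finset.mem_image.2 ⟨x, hxB, rfl⟩)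
    · have hxM : x ∈ M \ B := Finset.mem_sdiff.2 ⟨hx, hxB⟩
      by_cases hyB : y ∈ B
      · exfalso
        simp only [hxB, hyB, if_true, if_false, hxM, dif_pos] at h
        have h1 := hmem x hxM
        rw [h] at h1
        exact (Finset.mem_sdiff.1 h1).2 (Finset.mem_image.2 ⟨y, hyB, rfl⟩)
      · have hyM : y ∈ M \ B := Finset.mem_sdiff.2 ⟨hy, hyB⟩
        simp only [hxB, hyB, if_false, hxM, hyM, dif_pos] at h
        have h1 := (T.orderEmbOfFin rfl).injective h
        exact hg1 x hxM y hyM (by simpa using congrArg Fin.val h1)
  · intro x hx
    by_cases hxB : x ∈ B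
    · simp only [hxB, if_true]
      exact hr x hxB
    · have hxM : x ∈ M \ B := Finset.mem_sdiff.2 ⟨hx, hxB⟩
      simp only [hxB, if_false, hxM, dif_pos]
      have h1 : T.orderEmbOfFin rfl ⟨g x, hg2 x hxM⟩ ∈ T := Finset.orderEmbOfFin_mem _ _ _
      exact Finset.mem_Icc.1 (Finset.mem_sdiff.1 h1).1

/-- Number of elements of `A` at positions at least that of `x`. -/
def cnt {N : Type} (A : Finset N) (p : N → ℕ) (x : N) : ℕ := (A.filter (fun y => p x ≤ p y)).card

section cnt
variable {N : Type} {A : Finset N} {p : N → ℕ}

theorem cnt_pos {x : N} (hx : x ∈ A) : 1 ≤ cnt A p x :=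
  Finset.card_pos.2 ⟨x, Finset.mem_filter.2 ⟨hx, le_rfl⟩⟩

theorem cnt_le (x : N) : cnt A p x ≤ A.card := Finset.card_filter_le _ _

theorem cnt_lt {x y : N} (hx : x ∈ A) (hxy : p x < p y) : cnt A p y < cnt A p x := by
  apply Finset.card_lt_card
  refine ⟨?_, ?_⟩
  · intro w hw
    rw [Finset.mem_filter] at hw ⊢
    exact ⟨hw.1, by omega⟩
  · intro h
    have h1 := h (Finset.mem_filter.2 ⟨hx, le_rfl⟩)
    have h2 := (Finset.mem_filter.1 h1).2
    omega

theorem cnt_add_lt (hinj : ∀ x ∈ A, ∀ y ∈ A, p x = p y → x = y)
    (hsp : ∀ x ∈ A, ∀ y ∈ A, p x + 1 ≠ p y) {x y : N} (hx : x ∈ A) (hy : y ∈ A)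
    (hxy : p x < p y) : p x + cnt A p x < p y + cnt A p y := by
  classical
  have h1 : cnt A p x ≤ cnt A p y + (A.filter (fun w => p x ≤ p w ∧ p w < p y)).card := by
    unfold cnt
    rw [← Finset.card_union_of_disjoint]
    · apply Finset.card_le_card
      intro w hw
      rw [Finset.mem_filter] at hw
      rw [Finset.mem_union, Finset.mem_filter, Finset.mem_filter]
      by_cases h : p y ≤ p w
      · exact Or.inl ⟨hw.1, h⟩
      · exact Or.inr ⟨hw.1, hw.2, by omega⟩
    · rw [Finset.disjoint_filter]
      intro w _ h1 h2
      omega
  have h2 : (A.filter (fun w => p x ≤ p w ∧ p w < p y)).card ≤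
      ((Finset.Ico (p x) (p y)).erase (p x + 1)).card := by
    apply Finset.card_le_card_of_injOn p
    · intro w hw
      rw [Finset.mem_coe, Finset.mem_filter] at hw
      rw [Finset.mem_coe, Finset.mem_erase, Finset.mem_Ico]
      exact ⟨fun h => hsp x hx w hw.1 h.symm, hw.2⟩
    · intro a ha b hb hab
      rw [Finset.mem_coe, Finset.mem_filter] at ha hb
      exact hinj a ha.1 b hb.1 hab
  have h3 := hsp x hx y hy
  rw [Finset.card_erase_of_mem (Finset.mem_Ico.2 ⟨by omega, by omega⟩), Nat.card_Ico] at h2
  omega

theorem cnt_lower (hinj : ∀ x ∈ A, ∀ y ∈ A, p x = p y → x = y) {a : ℕ}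
    (ha : ∀ x ∈ A, a ≤ p x) {x : N} (hx : x ∈ A) : a + A.card ≤ p x + cnt A p x := by
  classical
  have h1 : A.card = cnt A p x + (A.filter (fun w => ¬ p x ≤ p w)).card := by
    unfold cnt
    rw [Finset.card_filter_add_card_filter_not]
  have h2 : (A.filter (fun w => ¬ p x ≤ p w)).card ≤ (Finset.Ico a (p x)).card := by
    apply Finset.card_le_card_of_injOn p
    · intro w hw
      rw [Finset.mem_coe, Finset.mem_filter] at hw
      rw [Finset.mem_coe, Finset.mem_Ico]
      exact ⟨ha w hw.1, by omega⟩
    · intro c hc b hb hab
      rw [Finset.mem_coe, Finset.mem_filter] at hc hb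
      exact hinj c hc.1 b hb.1 hab
  rw [Nat.card_Ico] at h2
  have := ha x hx
  omega

theorem cnt_upper (hinj : ∀ x ∈ A, ∀ y ∈ A, p x = p y → x = y) {b : ℕ}
    (hb : ∀ x ∈ A, p x ≤ b) {x : N} (hx : x ∈ A) : p x + cnt A p x ≤ b + 1 := by
  classical
  have h2 : cnt A p x ≤ (Finset.Icc (p x) b).card := by
    apply Finset.card_le_card_of_injOn p
    · intro w hw
      rw [Finset.mem_coe, Finset.mem_filter] at hw
      rw [Finset.mem_coe, Finset.mem_Icc]
      exact ⟨hw.2, hb w hw.1⟩
    · intro c hc e he hab
      rw [Finset.mem_coe, Finset.mem_filter] at hc he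
      exact hinj c hc.1 e he.1 hab
  rw [Nat.card_Icc] at h2
  have := hb x hx
  omega

end cnt

end Pool.Agent.TH529
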