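import Pool.Agent.TH529.Orient

set_option autoImplicit false

/-!
Involutions on the sets of children.
-/

namespace Pool.Agent.TH529

open Finset Classical

theorem exists_invol {N : Type} : ∀ (n : ℕ) (C : Finset N), C.card = n →
    ∃ t : N → N, (∀ x ∈ C, t x ∈ C ∧ t (t x) = x) ∧
      (∀ x ∈ C, ∀ y ∈ C, t x = x → t y = y → x = y) ∧
      ((∃ x ∈ C, t x = x) ↔ Odd C.card) := by
  intro n
  induction n using Nat.strong_induction_on with
  | _ n ih =>
    intro C hC
    by_cases h2 : 2 ≤ C.card
    · obtain ⟨a, ha, b, hb, hab⟩ := Finset.one_lt_card.1 h2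
      have hb' : b ∈ C.erase a := mem_erase.2 ⟨hab.symm, hb⟩
      have hc : ((C.erase a).erase b).card + 2 = C.card := by
        rw [card_erase_of_mem hb', card_erase_of_mem ha]
        omega
      obtain ⟨t, ht1, ht2, ht3⟩ := ih ((C.erase a).erase b).card (by omega) _ rfl
      have hmem : ∀ x, x ∈ C → x ≠ a → x ≠ b → x ∈ (C.erase a).erase b := by
        intro x hx h3 h4
        exact mem_erase.2 ⟨h4, mem_erase.2 ⟨h3, hx⟩⟩
      have hmem' : ∀ x, x ∈ (C.erase a).erase b → x ≠ a ∧ x ≠ b ∧ x ∈ C := by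
        intro x hx
        exact ⟨ne_of_mem_erase (mem_of_mem_erase hx), ne_of_mem_erase hx,
          mem_of_mem_erase (mem_of_mem_erase hx)⟩
      set t' : N → N := fun x => if x = a then b else if x = b then a else t x with ht'
      have e1 : t' a = b := by simp [ht']
      have e2 : t' b = a := by simp [ht', hab.symm]
      have e3 : ∀ x, x ≠ a → x ≠ b → t' x = t x := by
        intro x h3 h4
        simp [ht', h3, h4]
      refine ⟨t', ?_, ?_, ?_⟩
      · intro x hx
        by_cases hxa : x = a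
        · subst hxa
          rw [e1, e2]
          exact ⟨hb, rfl⟩
        · by_cases hxb : x = b
          · subst hxb
            rw [e2, e1]
            exact ⟨ha, rfl⟩
          · have h5 := ht1 x (hmem x hx hxa hxb)
            have h6 := hmem' _ h5.1
            rw [e3 x hxa hxb, e3 (t x) h6.1 h6.2.1]
            exact ⟨h6.2.2, h5.2⟩
      · intro x hx y hy h3 h4
        have hx' : x ≠ a ∧ x ≠ b := by
          constructor
          · rintro rfl
            rw [e1] at h3
            exact hab h3.symm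
          · rintro rfl
            rw [e2] at h3
            exact hab h3
        have hy' : y ≠ a ∧ y ≠ b := by
          constructor
          · rintro rfl
            rw [e1] at h4
            exact hab h4.symm
          · rintro rfl
            rw [e2] at h4
            exact hab h4
        rw [e3 x hx'.1 hx'.2] at h3
        rw [e3 y hy'.1 hy'.2] at h4
        exact ht2 x (hmem x hx hx'.1 hx'.2) y (hmem y hy hy'.1 hy'.2) h3 h4
      · rw [← hc, Nat.odd_add]
        have h7 : Even 2 := by decide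
        rw [show (Odd ((C.erase a).erase b).card ↔ Even 2) ↔ Odd ((C.erase a).erase b).card from
          ⟨fun h => h.2 h7, fun h => ⟨fun _ => h7, fun _ => h⟩⟩, ← ht3]
        constructor
        · rintro ⟨x, hx, h3⟩
          have hx' : x ≠ a ∧ x ≠ b := by
            constructor
            · rintro rfl
              rw [e1] at h3
              exact hab h3.symm
            · rintro rfl
              rw [e2] at h3
              exact hab h3
          rw [e3 x hx'.1 hx'.2] at h3
          exact ⟨x, hmem x hx hx'.1 hx'.2, h3⟩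
        · rintro ⟨x, hx, h3⟩
          have h6 := hmem' _ hx
          refine ⟨x, h6.2.2, ?_⟩
          rw [e3 x h6.1 h6.2.1]
          exact h3
    · refine ⟨id, fun x hx => ⟨hx, rfl⟩, ?_, ?_⟩
      · intro x hx y hy _ _
        exact Finset.card_le_one.1 (by omega) x hx y hy
      · constructor
        · rintro ⟨x, hx, _⟩
          have h3 : 0 < C.card := card_pos.2 ⟨x, hx⟩
          have h4 : C.card = 1 := by omega
          rw [h4]
          decide
        · intro h
          have h3 : 0 < C.card := h.pos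
          obtain ⟨x, hx⟩ := card_pos.1 h3
          exact ⟨x, hx, rfl⟩

/-- the sum of a labelling over a set with an involution, complementary on the pairs -/
theorem sum_invol {N : Type} (C : Finset N) (τ : N → N) (hC : ∀ x ∈ C, τ x ∈ C ∧ τ (τ x) = x)
    (f : N → ℕ) (K : ℕ) (hf : ∀ x ∈ C, τ x ≠ x → f x + f (τ x) = K)
    (h0 : ∀ x ∈ C, τ x ≠ x) : 2 * ∑ x ∈ C, f x = C.card * K := by
  have h1 : ∑ x ∈ C, f (τ x) = ∑ x ∈ C, f x := by
    apply Finset.sum_bij (fun x _ => τ x)
    · exact fun x hx => (hC x hx).1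
    · intro x hx y hy h
      rw [← (hC x hx).2, ← (hC y hy).2]
      exact congrArg τ h
    · intro x hx
      exact ⟨τ x, (hC x hx).1, (hC x hx).2⟩
    · intro x hx
      rfl
  have h2 : ∑ x ∈ C, (f x + f (τ x)) = C.card * K := by
    rw [Finset.sum_congr rfl (fun x hx => hf x hx (h0 x hx)), Finset.sum_const, smul_eq_mul]
  rw [Finset.sum_add_distrib, h1] at h2
  omega

theorem sum_invol_odd {N : Type} (C : Finset N) (τ : N → N)
    (hC : ∀ x ∈ C, τ x ∈ C ∧ τ (τ x) = x)
    (f : N → ℕ) (K : ℕ) (hf : ∀ x ∈ C, τ x ≠ x → f x + f (τ x) = K) (z : N) (hz : z ∈ C)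
    (hzf : τ z = z)
    (h0 : ∀ x ∈ C, τ x = x → x = z) :
    2 * ∑ x ∈ C, f x = (C.card - 1) * K + 2 * f z := by
  have h1 := sum_invol (C.erase z) τ (by
    intro x hx
    have h2 := hC x (mem_of_mem_erase hx)
    refine ⟨mem_erase.2 ⟨?_, h2.1⟩, h2.2⟩
    intro h3
    have h4 := h2.2
    rw [h3, hzf] at h4
    exact ne_of_mem_erase hx h4.symm) f K
    (fun x hx => hf x (mem_of_mem_erase hx)) (by
    intro x hx h3
    exact ne_of_mem_erase hx (h0 x (mem_of_mem_erase hx) h3))
  rw [card_erase_of_mem hz] at h1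
  rw [← h1, ← Finset.sum_erase_add _ _ hz]
  ring

/-- number of non-fixed elements -/
theorem card_nonfixed {N : Type} (C : Finset N) (τ : N → N)
    (hC2 : ∀ x ∈ C, ∀ y ∈ C, τ x = x → τ y = y → x = y) :
    C.card ≤ (C.filter (fun x => τ x ≠ x)).card + 1 := by
  have h1 : (C.filter (fun x => τ x = x)).card ≤ 1 := by
    apply Finset.card_le_one.2
    intro x hx y hy
    exact hC2 x (mem_filter.1 hx).1 y (mem_filter.1 hy).1 (mem_filter.1 hx).2 (mem_filter.1 hy).2
  have h2 : C.card = (C.filter (fun x => τ x = x)).card + (C.filter (fun x => τ x ≠ x)).card := by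
    rw [card_filter_add_card_filter_not]
  omega

/-- the counting inequality -/
theorem count_ineq {N V : Type} [Fintype N] (τ : N → N) (hτ : ∀ x, τ (τ x) = x)
    (O E2 E4 : N → Prop) (h1 : ∀ x, O x → ¬ E2 x) (h2 : ∀ x, O x → ¬ E4 x)
    (hE24 : ∀ x, E2 x → ¬ E4 x) (par : N → V) (ι : N → V) (hι : Function.Injective ι)
    (hO : ∀ x, O x → 2 ≤ (univ.filter (fun y => τ y ≠ y ∧ par y = ι x)).card)
    (hE2 : ∀ x, E2 x → 2 ≤ (univ.filter (fun y => τ y ≠ y ∧ par y = ι x)).card)
    (hE4 : ∀ x, E4 x → 4 ≤ (univ.filter (fun y => τ y ≠ y ∧ par y = ι x)).card) :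
    2 * (univ.filter (fun x => τ x ≠ x ∧ Dang τ E2 E4 x)).card +
      2 * (univ.filter (fun x => τ x ≠ x ∧ O x ∧ E2 (τ x))).card +
      2 * (univ.filter (fun x => O x)).card ≤ (univ.filter (fun x => τ x ≠ x)).card := by
  have hτne : ∀ x, τ x ≠ x → τ (τ x) ≠ τ x := by
    intro x hx h
    rw [hτ] at h
    exact hx h.symm
  set w : N → ℕ := fun x => if E2 x then 1 else if E4 x then 2 else 0 with hw
  have w1 : ∀ x, E2 x → w x = 1 := by
    intro x hx
    simp [hw, hx]
  have w2 : ∀ x, E4 x → w x = 2 := by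
    intro x hx
    have : ¬ E2 x := fun h => hE24 x h hx
    simp [hw, hx, this]
  have w3 : ∀ x, O x → w x = 0 := by
    intro x hx
    simp [hw, h1 x hx, h2 x hx]
  have hA : (univ.filter (fun x => τ x ≠ x ∧ Dang τ E2 E4 x)).card ≤
      ∑ x ∈ univ.filter (fun x => τ x ≠ x ∧ Dang τ E2 E4 x), w x := by
    have h3 : ∑ x ∈ univ.filter (fun x => τ x ≠ x ∧ Dang τ E2 E4 x), w (τ x) =
        ∑ x ∈ univ.filter (fun x => τ x ≠ x ∧ Dang τ E2 E4 x), w x := by
      have hm : ∀ x ∈ univ.filter (fun x => τ x ≠ x ∧ Dang τ E2 E4 x),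
          τ x ∈ univ.filter (fun x => τ x ≠ x ∧ Dang τ E2 E4 x) := by
        intro x hx
        have hx' := (mem_filter.1 hx).2
        exact mem_filter.2 ⟨mem_univ _, hτne x hx'.1, (Dang.symm hτ).2 hx'.2⟩
      apply Finset.sum_bij (fun x _ => τ x) hm
      · intro x _ y _ h
        rw [← hτ x, ← hτ y]
        exact congrArg τ h
      · intro x hx
        exact ⟨τ x, hm x hx, hτ x⟩
      · intro x _
        rfl
    have h4 : 2 * (univ.filter (fun x => τ x ≠ x ∧ Dang τ E2 E4 x)).card ≤
        ∑ x ∈ univ.filter (fun x => τ x ≠ x ∧ Dang τ E2 E4 x), (w x + w (τ x)) := by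
      rw [mul_comm, ← smul_eq_mul, ← Finset.sum_const]
      apply Finset.sum_le_sum
      intro x hx
      rcases (mem_filter.1 hx).2.2 with h5 | h5 | h5
      · rw [w2 x h5]
        omega
      · rw [w2 _ h5]
        omega
      · rw [w1 _ h5.1, w1 _ h5.2]
    rw [Finset.sum_add_distrib, h3] at h4
    omega
  have hB : (univ.filter (fun x => τ x ≠ x ∧ O x ∧ E2 (τ x))).card ≤
      ∑ x ∈ univ.filter (fun x => ¬ (τ x ≠ x ∧ Dang τ E2 E4 x)), w x := by
    rw [Finset.card_eq_sum_ones]
    have hinj : Set.InjOn τ (univ.filter (fun x => τ x ≠ x ∧ O x ∧ E2 (τ x)) : Finset N) := by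
      intro x _ y _ h
      rw [← hτ x, ← hτ y]
      exact congrArg τ h
    calc ∑ x ∈ univ.filter (fun x => τ x ≠ x ∧ O x ∧ E2 (τ x)), 1
        ≤ ∑ x ∈ univ.filter (fun x => τ x ≠ x ∧ O x ∧ E2 (τ x)), w (τ x) := by
          apply Finset.sum_le_sum
          intro x hx
          rw [w1 _ (mem_filter.1 hx).2.2.2]
      _ = ∑ y ∈ (univ.filter (fun x => τ x ≠ x ∧ O x ∧ E2 (τ x))).image τ, w y := by
          rw [Finset.sum_image hinj]
      _ ≤ ∑ x ∈ univ.filter (fun x => ¬ (τ x ≠ x ∧ Dang τ E2 E4 x)), w x := by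
          apply Finset.sum_le_sum_of_subset
          intro y hy
          obtain ⟨x, hx, rfl⟩ := mem_image.1 hy
          have h3 := (mem_filter.1 hx).2
          refine mem_filter.2 ⟨mem_univ _, ?_⟩
          rintro ⟨-, h4⟩
          rw [Dang.symm hτ] at h4
          rcases h4 with h5 | h5 | h5
          · exact h2 x h3.2.1 h5
          · exact hE24 _ h3.2.2 h5
          · exact h1 x h3.2.1 h5.1
  have hAB : ∑ x ∈ univ.filter (fun x => τ x ≠ x ∧ Dang τ E2 E4 x), w x +
      ∑ x ∈ univ.filter (fun x => ¬ (τ x ≠ x ∧ Dang τ E2 E4 x)), w x = ∑ x, w x :=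
    Finset.sum_filter_add_sum_filter_not _ _ _
  have hOc : (univ.filter (fun x => O x)).card = ∑ x, (if O x then 1 else 0) := by
    rw [Finset.card_filter]
  have hpt : ∀ x, 2 * (w x + (if O x then 1 else 0)) ≤
      (univ.filter (fun y => τ y ≠ y ∧ par y = ι x)).card := by
    intro x
    by_cases hx : O x
    · rw [w3 x hx, if_pos hx]
      exact hO x hx
    · rw [if_neg hx]
      by_cases hx2 : E2 x
      · rw [w1 x hx2]
        exact hE2 x hx2
      · by_cases hx4 : E4 x
        · rw [w2 x hx4]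
          exact hE4 x hx4
        · simp [hw, hx2, hx4]
  have hsum : ∑ x, 2 * (w x + (if O x then 1 else 0)) ≤
      ∑ x, (univ.filter (fun y => τ y ≠ y ∧ par y = ι x)).card :=
    Finset.sum_le_sum (fun x _ => hpt x)
  have hsum2 : ∑ x, (univ.filter (fun y => τ y ≠ y ∧ par y = ι x)).card ≤
      (univ.filter (fun x => τ x ≠ x)).card := by
    rw [← Finset.card_biUnion]
    · apply card_le_card
      intro y hy
      obtain ⟨x, _, hx⟩ := mem_biUnion.1 hy
      exact mem_filter.2 ⟨mem_univ _, (mem_filter.1 hx).2.1⟩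
    · intro x _ y _ hxy
      rw [Function.onFun, disjoint_left]
      intro a ha hb
      have h3 := (mem_filter.1 ha).2.2
      have h4 := (mem_filter.1 hb).2.2
      exact hxy (hι (h3.symm.trans h4))
  rw [← Finset.mul_sum, Finset.sum_add_distrib, ← hOc] at hsum
  omega

end Pool.Agent.TH529
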