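import Pool.Agent.TH529.Orient

set_option autoImplicit false

/-!
Positions of the pairs.
-/

namespace Pool.Agent.TH529

open Finset Classical

theorem card_outer {N : Type} [Fintype N] (τ : N → N) (hτ : ∀ x, τ (τ x) = x)
    (O E2 E4 : N → Prop) (M : Finset N) (hM1 : ∀ x ∈ M, τ x ≠ x)
    (hM2 : ∀ x, τ x ≠ x → (x ∈ M ↔ τ x ∉ M)) :
    (univ.filter (fun x => O x)).card =
      (univ.filter (fun x => O x ∧ (τ x = x ∨ Dang τ E2 E4 x))).card +
      (M.filter (fun x => ¬ Dang τ E2 E4 x ∧ O x)).card +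
      (M.filter (fun x => ¬ Dang τ E2 E4 x ∧ O (τ x))).card := by
  have h3 : (univ.filter (fun x => O x)) =
      (univ.filter (fun x => O x ∧ (τ x = x ∨ Dang τ E2 E4 x))) ∪
      ((M.filter (fun x => ¬ Dang τ E2 E4 x ∧ O x)) ∪
      ((M.filter (fun x => ¬ Dang τ E2 E4 x ∧ O (τ x))).image τ)) := by
    ext x
    simp only [mem_filter, mem_univ, true_and, mem_union, mem_image]
    constructor
    · intro hx
      by_cases h : τ x = x ∨ Dang τ E2 E4 x
      · exact Or.inl ⟨hx, h⟩
      · push Not at h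
        by_cases hM : x ∈ M
        · exact Or.inr (Or.inl ⟨hM, h.2, hx⟩)
        · right; right
          refine ⟨τ x, ⟨?_, ?_, ?_⟩, hτ x⟩
          · by_contra h4
            exact hM ((hM2 x h.1).2 h4)
          · rw [Dang.symm hτ]
            exact h.2
          · rw [hτ]
            exact hx
    · rintro (h | h | ⟨y, h, rfl⟩)
      · exact h.1
      · exact h.2.2
      · exact h.2.2
  rw [h3, card_union_of_disjoint, card_union_of_disjoint, card_image_of_injective]
  · omega
  · intro a b hab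
    rw [← hτ a, ← hτ b]
    exact congrArg τ hab
  · rw [disjoint_left]
    intro x hx hx2
    obtain ⟨y, hy, rfl⟩ := mem_image.1 hx2
    have h4 := (mem_filter.1 hx).1
    have h5 := (mem_filter.1 hy).1
    exact (hM2 y (hM1 y h5)).1 h5 h4
  · rw [disjoint_left]
    intro x hx hx2
    have h4 := (mem_filter.1 hx).2.2
    rcases mem_union.1 hx2 with h5 | h5
    · have h6 := mem_filter.1 h5
      rcases h4 with h7 | h7
      · exact hM1 x h6.1 h7
      · exact h6.2.1 h7
    · obtain ⟨y, hy, rfl⟩ := mem_image.1 h5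
      have h6 := mem_filter.1 hy
      rcases h4 with h7 | h7
      · rw [hτ] at h7
        exact hM1 y h6.1 h7.symm
      · rw [Dang.symm hτ] at h7
        exact h6.2.1 h7

theorem exists_pos {N : Type} [Fintype N] (τ : N → N) (hτ : ∀ x, τ (τ x) = x)
    (O E2 E4 : N → Prop) (M : Finset N) (hM1 : ∀ x ∈ M, τ x ≠ x)
    (hM2 : ∀ x, τ x ≠ x → (x ∈ M ↔ τ x ∉ M))
    (e e2 o x0 s : ℕ)
    (he : (M.filter (fun x => Dang τ E2 E4 x)).card = e)
    (ho : (univ.filter (fun x => O x)).card = o)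
    (hx0 : (univ.filter (fun x => O x ∧ (τ x = x ∨ Dang τ E2 E4 x))).card = x0)
    (hs : M.card = s)
    (hP1 : (M.filter (fun x => ¬ Dang τ E2 E4 x ∧ ¬ O x ∧ O (τ x))).card ≤
        (M.filter (fun x => ¬ Dang τ E2 E4 x ∧ O x ∧ ¬ O (τ x))).card)
    (hP2 : (M.filter (fun x => ¬ Dang τ E2 E4 x ∧ O x ∧ ¬ O (τ x))).card ≤
        (M.filter (fun x => ¬ Dang τ E2 E4 x ∧ ¬ O x ∧ O (τ x))).card + e2 + 1)
    (hse : 2 * e + e2 + o ≤ s) :
    ∃ pos : N → ℕ,
      (∀ x ∈ M, ∀ y ∈ M, pos x = pos y → x = y) ∧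
      (∀ x ∈ M, 1 ≤ pos x ∧ pos x ≤ s) ∧
      (∀ x ∈ M, Dang τ E2 E4 x → pos x ≤ e) ∧
      (∀ x ∈ M, ¬ Dang τ E2 E4 x → O x → e + x0 + 1 ≤ pos x ∧ pos x ≤ e + o + e2) ∧
      (∀ x ∈ M, ¬ Dang τ E2 E4 x → O (τ x) → e + x0 + 1 ≤ pos x ∧ pos x + 1 ≤ e + o + e2) ∧
      (∀ x ∈ M, ∀ y ∈ M, ¬ Dang τ E2 E4 x → ¬ Dang τ E2 E4 y → O x → O y →
        pos x + 1 ≠ pos y) ∧
      (∀ x ∈ M, ∀ y ∈ M, ¬ Dang τ E2 E4 x → ¬ Dang τ E2 E4 y → O (τ x) → O (τ y) →
        pos x + 1 ≠ pos y) := by
  have hcount := card_outer τ hτ O E2 E4 M hM1 hM2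
  have hsplit1 : (M.filter (fun x => ¬ Dang τ E2 E4 x ∧ O x)).card =
      (M.filter (fun x => ¬ Dang τ E2 E4 x ∧ O x ∧ O (τ x))).card +
      (M.filter (fun x => ¬ Dang τ E2 E4 x ∧ O x ∧ ¬ O (τ x))).card := by
    rw [← card_union_of_disjoint]
    · congr 1
      ext x
      simp only [mem_filter, mem_union]
      tauto
    · rw [disjoint_filter]
      tauto
  have hsplit2 : (M.filter (fun x => ¬ Dang τ E2 E4 x ∧ O (τ x))).card =
      (M.filter (fun x => ¬ Dang τ E2 E4 x ∧ O x ∧ O (τ x))).card +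
      (M.filter (fun x => ¬ Dang τ E2 E4 x ∧ ¬ O x ∧ O (τ x))).card := by
    rw [← card_union_of_disjoint]
    · congr 1
      ext x
      simp only [mem_filter, mem_union]
      tauto
    · rw [disjoint_filter]
      tauto
  obtain ⟨gD, hD1, hD2⟩ := exists_idx (M.filter (fun x => Dang τ E2 E4 x))
  obtain ⟨gB, hB1, hB2⟩ := exists_idx (M.filter (fun x => ¬ Dang τ E2 E4 x ∧ O x ∧ O (τ x)))
  obtain ⟨gP, hgP1, hgP2⟩ := exists_idx (M.filter (fun x => ¬ Dang τ E2 E4 x ∧ O x ∧ ¬ O (τ x)))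
  obtain ⟨gN, hgN1, hgN2⟩ := exists_idx (M.filter (fun x => ¬ Dang τ E2 E4 x ∧ ¬ O x ∧ O (τ x)))
  rw [he] at hD2
  rw [ho, hx0, hsplit1, hsplit2] at hcount
  generalize hk2 : (M.filter (fun x => ¬ Dang τ E2 E4 x ∧ O x ∧ O (τ x))).card = k2 at *
  generalize hPs : (M.filter (fun x => ¬ Dang τ E2 E4 x ∧ O x ∧ ¬ O (τ x))).card = Ps at *
  generalize hNs : (M.filter (fun x => ¬ Dang τ E2 E4 x ∧ ¬ O x ∧ O (τ x))).card = Ns at *
  obtain ⟨t, ht⟩ : ∃ t : ℕ, (t = 1 ∧ Ns < Ps) ∨ (t = 2 ∧ Ns = Ps) := by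
    rcases lt_or_eq_of_le hP1 with h | h
    · exact ⟨1, Or.inl ⟨rfl, h⟩⟩
    · exact ⟨2, Or.inr ⟨rfl, h⟩⟩
  set p : N → ℕ := fun x => if Dang τ E2 E4 x then 1 + gD x else
    if O x then (if O (τ x) then e + x0 + 1 + 2 * gB x else e + x0 + 2 * k2 + t + 2 * gP x)
    else e + x0 + 2 * k2 + 3 - t + 2 * gN x with hp
  have c1 : ∀ x ∈ M, Dang τ E2 E4 x → p x = 1 + gD x ∧ gD x < e := by
    intro x hx h
    exact ⟨by simp [hp, h], hD2 x (mem_filter.2 ⟨hx, h⟩)⟩
  have c2 : ∀ x ∈ M, ¬ Dang τ E2 E4 x → O x → O (τ x) →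
      p x = e + x0 + 1 + 2 * gB x ∧ gB x < k2 := by
    intro x hx h h1 h2
    exact ⟨by simp [hp, h, h1, h2], hB2 x (mem_filter.2 ⟨hx, h, h1, h2⟩)⟩
  have c3 : ∀ x ∈ M, ¬ Dang τ E2 E4 x → O x → ¬ O (τ x) →
      p x = e + x0 + 2 * k2 + t + 2 * gP x ∧ gP x < Ps := by
    intro x hx h h1 h2
    exact ⟨by simp [hp, h, h1, h2], hgP2 x (mem_filter.2 ⟨hx, h, h1, h2⟩)⟩
  have c4 : ∀ x ∈ M, ¬ Dang τ E2 E4 x → ¬ O x → O (τ x) →
      p x = e + x0 + 2 * k2 + 3 - t + 2 * gN x ∧ gN x < Ns := by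
    intro x hx h h1 h2
    exact ⟨by simp [hp, h, h1], hgN2 x (mem_filter.2 ⟨hx, h, h1, h2⟩)⟩
  obtain ⟨q, hq1, hq2, hq3⟩ := exists_ext M (M.filter (fun x => Dang τ E2 E4 x ∨ O x ∨ O (τ x)))
    (filter_subset _ _) p s hs (by
      intro x hx y hy hxy
      rw [mem_filter] at hx hy
      obtain ⟨hxM, hx⟩ := hx
      obtain ⟨hyM, hy⟩ := hy
      by_cases hxD : Dang τ E2 E4 x
      · have h1 := c1 x hxM hxD
        by_cases hyD : Dang τ E2 E4 y
        · have h2 := c1 y hyM hyD
          exact hD1 x (mem_filter.2 ⟨hxM, hxD⟩) y (mem_filter.2 ⟨hyM, hyD⟩) (by omega)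
        · exfalso
          by_cases hyO : O y
          · by_cases hyT : O (τ y)
            · have h2 := c2 y hyM hyD hyO hyT
              omega
            · have h2 := c3 y hyM hyD hyO hyT
              omega
          · have h2 := c4 y hyM hyD hyO (by tauto)
            omega
      · by_cases hxO : O x
        · by_cases hxT : O (τ x)
          · have h1 := c2 x hxM hxD hxO hxT
            by_cases hyD : Dang τ E2 E4 y
            · have h2 := c1 y hyM hyD
              omega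
            · by_cases hyO : O y
              · by_cases hyT : O (τ y)
                · have h2 := c2 y hyM hyD hyO hyT
                  exact hB1 x (mem_filter.2 ⟨hxM, hxD, hxO, hxT⟩) y
                    (mem_filter.2 ⟨hyM, hyD, hyO, hyT⟩) (by omega)
                · have h2 := c3 y hyM hyD hyO hyT
                  omega
              · have h2 := c4 y hyM hyD hyO (by tauto)
                omega
          · have h1 := c3 x hxM hxD hxO hxT
            by_cases hyD : Dang τ E2 E4 y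
            · have h2 := c1 y hyM hyD
              omega
            · by_cases hyO : O y
              · by_cases hyT : O (τ y)
                · have h2 := c2 y hyM hyD hyO hyT
                  omega
                · have h2 := c3 y hyM hyD hyO hyT
                  exact hgP1 x (mem_filter.2 ⟨hxM, hxD, hxO, hxT⟩) y
                    (mem_filter.2 ⟨hyM, hyD, hyO, hyT⟩) (by omega)
              · have h2 := c4 y hyM hyD hyO (by tauto)
                omega
        · have hxT : O (τ x) := by tauto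
          have h1 := c4 x hxM hxD hxO hxT
          by_cases hyD : Dang τ E2 E4 y
          · have h2 := c1 y hyM hyD
            omega
          · by_cases hyO : O y
            · by_cases hyT : O (τ y)
              · have h2 := c2 y hyM hyD hyO hyT
                omega
              · have h2 := c3 y hyM hyD hyO hyT
                omega
            · have hyT : O (τ y) := by tauto
              have h2 := c4 y hyM hyD hyO hyT
              exact hgN1 x (mem_filter.2 ⟨hxM, hxD, hxO, hxT⟩) y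
                (mem_filter.2 ⟨hyM, hyD, hyO, hyT⟩) (by omega)) (by
      intro x hx
      rw [mem_filter] at hx
      obtain ⟨hxM, hx⟩ := hx
      by_cases hxD : Dang τ E2 E4 x
      · have h1 := c1 x hxM hxD
        omega
      · by_cases hxO : O x
        · by_cases hxT : O (τ x)
          · have h1 := c2 x hxM hxD hxO hxT
            omega
          · have h1 := c3 x hxM hxD hxO hxT
            omega
        · have h1 := c4 x hxM hxD hxO (by tauto)
          omega)
  refine ⟨q, hq2, hq3, ?_, ?_, ?_, ?_, ?_⟩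
  · intro x hx h
    rw [hq1 x (mem_filter.2 ⟨hx, Or.inl h⟩)]
    have h1 := c1 x hx h
    omega
  · intro x hx h h1
    rw [hq1 x (mem_filter.2 ⟨hx, Or.inr (Or.inl h1)⟩)]
    by_cases hxT : O (τ x)
    · have h1 := c2 x hx h h1 hxT
      omega
    · have h1 := c3 x hx h h1 hxT
      omega
  · intro x hx h h1
    rw [hq1 x (mem_filter.2 ⟨hx, Or.inr (Or.inr h1)⟩)]
    by_cases hxT : O x
    · have h1 := c2 x hx h hxT h1
      omega
    · have h1 := c4 x hx h hxT h1
      omega
  · intro x hx y hy hxD hyD hxO hyO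
    rw [hq1 x (mem_filter.2 ⟨hx, Or.inr (Or.inl hxO)⟩),
      hq1 y (mem_filter.2 ⟨hy, Or.inr (Or.inl hyO)⟩)]
    by_cases hxT : O (τ x)
    · have h1 := c2 x hx hxD hxO hxT
      by_cases hyT : O (τ y)
      · have h2 := c2 y hy hyD hyO hyT
        omega
      · have h2 := c3 y hy hyD hyO hyT
        omega
    · have h1 := c3 x hx hxD hxO hxT
      by_cases hyT : O (τ y)
      · have h2 := c2 y hy hyD hyO hyT
        omega
      · have h2 := c3 y hy hyD hyO hyT
        omega
  · intro x hx y hy hxD hyD hxT hyT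
    rw [hq1 x (mem_filter.2 ⟨hx, Or.inr (Or.inr hxT)⟩),
      hq1 y (mem_filter.2 ⟨hy, Or.inr (Or.inr hyT)⟩)]
    by_cases hxO : O x
    · have h1 := c2 x hx hxD hxO hxT
      by_cases hyO : O y
      · have h2 := c2 y hy hyD hyO hyT
        omega
      · have h2 := c4 y hy hyD hyO hyT
        omega
    · have h1 := c4 x hx hxD hxO hxT
      by_cases hyO : O y
      · have h2 := c2 y hy hyD hyO hyT
        omega
      · have h2 := c4 y hy hyD hyO hyT
        omega

end Pool.Agent.TH529
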